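import Pool.Agent.Helper86.Poly.CookLevin

/-!
NP-hardness proofs by reduction from satisfiability.
-/

set_option autoImplicit false

namespace Pool.Agent.Helper86.NP

open Turing Computability

/-- To prove that `P` is NP-hard it suffices to reduce satisfiability of formulas in conjunctive
normal form to `P` in polynomial time. -/
theorem npHard_of_sat {α : Type} (enc : Encoding α Bool) (P : Set α)
    (f : List (List (Bool × ℕ)) → α) (F : List (List (Bool × ℕ)) → List Bool) (hF : PT.Poly F)
    (hFf : ∀ φ, F φ = enc.encode (f φ)) (hP : ∀ φ, PT.Sat φ ↔ f φ ∈ P) : NPHard enc P := by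
  intro L hL
  obtain ⟨Φ, hΦ, hΦ'⟩ := cook_levin hL
  refine ⟨fun x => f (Φ x), ?_, fun x => (hΦ' x).trans (hP _)⟩
  exact PT.Poly.toTM2 (F := fun x => F (Φ x)) (hF.comp hΦ) (fun x => hFf (Φ x))

end Pool.Agent.Helper86.NP
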