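import Pool.Agent.Helper86.Poly.Fun

/-!
Polynomial time functions: products of lists, sizes, binary expansions.
-/

set_option autoImplicit false

namespace Pool.Agent.Helper86.PT

open Computability

variable {α β γ : Type} [TEnc α] [TEnc β] [TEnc γ]

theorem Poly.product {l : α → List β} {l' : α → List γ} (hl : Poly l) (hl' : Poly l') :
    Poly (fun a => l a ×ˢ l' a) := by
  have h := Poly.flatMap (l := l) (f := fun a b => (l' a).map (fun c => (b, c))) hl
    (Poly.map (l := fun p : α × β => l' p.1) (f := fun p c => (p.2, c))
      (hl'.comp (Poly.fst Poly.id)) (Poly.pair (Poly.snd (Poly.fst Poly.id)) (Poly.snd Poly.id)))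
  exact h

theorem Poly.nodes {f : α → β} (hf : Poly f) : Poly (fun a => (toT (f a)).nodes) := by
  obtain ⟨b, hb, -, hb'⟩ := hf.size_bound
  have key : ∀ i : ℕ, (fun n : ℕ => n + 1)^[i] 0 = i := by
    intro i
    induction i with
    | zero => rfl
    | succ i ih => rw [Function.iterate_succ_apply', ih]
  have h := Poly.iter (F := fun n : ℕ => n + 1) (Poly.succ Poly.id) (cnt := fun a => toT (f a)) hf
    (g := fun _ => 0) (Poly.const 0) hb (by
      intro a i hi
      rw [key, tsz_nat]
      have h1 : (toT (f a)).size ≤ b (tsz a) := hb' a
      rw [T.size_eq] at h1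
      omega)
  exact h.congr (fun a => key _)

theorem nodes_mem_lt {l : List α} {a : α} (h : a ∈ l) : (toT a).nodes < (toT l).nodes := by
  induction l with
  | nil => simp at h
  | cons b l ih =>
    rw [toT_cons, T.nodes]
    rcases List.mem_cons.mp h with rfl | h
    · omega
    · have := ih h; omega

theorem nodes_pair (a : α) (b : β) : (toT (a, b)).nodes = (toT a).nodes + (toT b).nodes + 1 := by
  rw [toT_pair, T.nodes]

/-- Incrementing a binary expansion. -/
def inc : List Bool → List Bool
  | [] => [true]
  | false :: l => true :: l
  | true :: l => false :: inc l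

theorem encodePosNum_succ (p : PosNum) : encodePosNum (PosNum.succ p) = inc (encodePosNum p) := by
  induction p with
  | one => rfl
  | bit1 n ih =>
    show false :: encodePosNum (PosNum.succ n) = false :: inc (encodePosNum n)
    rw [ih]
  | bit0 n ih => rfl

theorem encodeNat_succ (n : ℕ) : encodeNat (n + 1) = inc (encodeNat n) := by
  unfold encodeNat
  rw [Nat.cast_succ, Num.add_one]
  cases (n : Num) with
  | zero => rfl
  | pos p => exact encodePosNum_succ p

theorem encodeNat_iterate (n : ℕ) : inc^[n] [] = encodeNat n := by
  induction n with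
  | zero => rfl
  | succ n ih => rw [Function.iterate_succ_apply', ih, encodeNat_succ]

theorem inc_length (l : List Bool) : (inc l).length ≤ l.length + 1 := by
  induction l with
  | nil => simp [inc]
  | cons b l ih => cases b <;> simp [inc, ih]

theorem encodeNat_length (n : ℕ) : (encodeNat n).length ≤ n := by
  induction n with
  | zero => exact le_refl _
  | succ n ih =>
    rw [encodeNat_succ]
    have := inc_length (encodeNat n)
    omega

/-- One step of the addition with carry. -/
def incStep (s : Bool × List Bool) (b : Bool) : Bool × List Bool :=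
  (s.1 && b, (bif s.1 then !b else b) :: s.2)

theorem incStep_spec (l : List Bool) : ∀ (c : Bool) (acc : List Bool),
    (bif (l.foldl incStep (c, acc)).1 then (true :: (l.foldl incStep (c, acc)).2).reverse
      else (l.foldl incStep (c, acc)).2.reverse) = acc.reverse ++ (bif c then inc l else l) := by
  induction l with
  | nil => intro c acc; cases c <;> simp [inc]
  | cons b l ih =>
    intro c acc
    rw [List.foldl_cons]
    show (bif (l.foldl incStep (incStep (c, acc) b)).1 then _ else _) = _
    rw [show incStep (c, acc) b = (c && b, (bif c then !b else b) :: acc) from rfl, ih]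
    cases c <;> cases b <;> simp [inc]

theorem incStep_length (l : List Bool) : ∀ (c : Bool) (acc : List Bool),
    (l.foldl incStep (c, acc)).2.length = acc.length + l.length := by
  induction l with
  | nil => intro c acc; rfl
  | cons b l ih =>
    intro c acc
    rw [List.foldl_cons]
    rw [show incStep (c, acc) b = (c && b, (bif c then !b else b) :: acc) from rfl, ih]
    simp only [List.length_cons]
    omega

theorem Poly.inc {f : α → List Bool} (hf : Poly f) : Poly (fun a => PT.inc (f a)) := by
  obtain ⟨b, hb, -, hb'⟩ := hf.size_bound
  have h := Poly.foldl (l := f) (g := fun _ => (true, ([] : List Bool)))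
    (f := fun _ s b => incStep s b) hf (Poly.const _)
    (Poly.pair (Poly.and (Poly.fst (Poly.fst (Poly.snd Poly.id))) (Poly.snd (Poly.snd Poly.id)))
      (Poly.cons (Poly.cond (Poly.fst (Poly.fst (Poly.snd Poly.id)))
        (Poly.not (Poly.snd (Poly.snd Poly.id))) (Poly.snd (Poly.snd Poly.id)))
        (Poly.snd (Poly.fst (Poly.snd Poly.id)))))
    (B := fun k => b k * (3 + 1) + 1 + 4) (((hb.mul (PB.const (3 + 1))).add (PB.const 1)).add
      (PB.const 4)) (by
      intro a i
      have h1 : ∀ s : Bool × List Bool, tsz s ≤ 3 + (tsz s.2 + 1) := by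
        rintro ⟨c, l⟩
        rw [tsz_pair]
        show tsz c + tsz l + 1 ≤ 3 + (tsz l + 1)
        have := tsz_bool_le c
        omega
      refine (h1 _).trans ?_
      have h2 : tsz (((f a).take i).foldl incStep (true, [])).2 ≤ b (tsz a) * (3 + 1) + 1 := by
        refine tsz_list_le ?_ (fun c _ => tsz_bool_le c)
        rw [incStep_length]
        have h3 := length_le_tsz ((f a).take i)
        have h4 := tsz_take (f a) i
        have h5 := hb' a
        simp only [List.length_nil]
        omega
      refine (Nat.add_le_add_left (Nat.add_le_add_right h2 1) 3).trans ?_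
      omega)
  have h2 := Poly.cond (Poly.fst h) (Poly.reverse (Poly.cons (Poly.const true) (Poly.snd h)))
    (Poly.reverse (Poly.snd h))
  refine h2.congr (fun a => ?_)
  have := incStep_spec (f a) true []
  simpa using this

theorem Poly.encodeNat {f : α → ℕ} (hf : Poly f) : Poly (fun a => encodeNat (f a)) := by
  obtain ⟨b, hb, -, hb'⟩ := hf.size_bound
  have h := Poly.natIter (n := f) (g := fun _ => ([] : List Bool)) (f := fun _ s => PT.inc s) hf
    (Poly.const []) (Poly.inc (Poly.snd Poly.id)) (B := fun k => b k * (3 + 1) + 1)
    ((hb.mul (PB.const (3 + 1))).add (PB.const 1)) (by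
      intro a i hi
      refine tsz_list_le ?_ (fun c _ => tsz_bool_le c)
      have h1 : (PT.inc^[i] []).length ≤ i := by rw [encodeNat_iterate]; exact encodeNat_length i
      have h2 := hb' a
      rw [tsz_nat] at h2
      show (PT.inc^[i] []).length ≤ b (tsz a)
      omega)
  exact h.congr (fun a => encodeNat_iterate _)

end Pool.Agent.Helper86.PT
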