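import Pool.Agent.Helper86.Poly.Fun

/-!
Cellular automaton tableaux as CNF formulas.
-/

set_option autoImplicit false

namespace Pool.Agent.Helper86.PT

/-- Satisfiability of a formula in conjunctive normal form: a list of clauses, which are lists of
literals `(b, i)`; the literal `(b, i)` holds when the variable `i` has value `b`. -/
def Sat (φ : List (List (Bool × ℕ))) : Prop :=
  ∃ ν : ℕ → Bool, ∀ C ∈ φ, ∃ l ∈ C, ν l.2 = l.1

theorem Poly.natPair {α : Type} [TEnc α] {f g : α → ℕ} (hf : Poly f) (hg : Poly g) :
    Poly (fun a => Nat.pair (f a) (g a)) := by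
  have h := Poly.ite (c := fun a => f a < g a) (Poly.lt hf hg)
    (Poly.add (Poly.mul hg hg) hf) (Poly.add (Poly.add (Poly.mul hf hf) hf) hg)
  exact h.congr (fun a => rfl)

/-- The variable for the statement that cell `j` has symbol `a` at time `t`. -/
def tvar (t j a : ℕ) : ℕ := Nat.pair (Nat.pair t j) a

theorem Poly.tvar {α : Type} [TEnc α] {f g h : α → ℕ} (hf : Poly f) (hg : Poly g) (hh : Poly h) :
    Poly (fun a => tvar (f a) (g a) (h a)) :=
  Poly.natPair (Poly.natPair hf hg) hh

/-! ### The formula -/

/-- The rule clauses. -/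
def ruleClauses (tuples : List (ℕ × ℕ × ℕ × ℕ × ℕ)) (T : ℕ) : List (List (Bool × ℕ)) :=
  (List.range T).flatMap fun t => (List.range (T + 1)).flatMap fun j => tuples.map fun u =>
    [(false, tvar t 0 u.1), (false, tvar t (j - 1) u.2.1), (false, tvar t j u.2.2.1),
      (false, tvar t (j + 1) u.2.2.2.1), (true, tvar (t + 1) j u.2.2.2.2)]

/-- The rejection clauses. -/
def rejClauses (rej : List ℕ) (T : ℕ) : List (List (Bool × ℕ)) :=
  rej.map fun a => [(false, tvar T 1 a)]

/-- The symbols allowed initially. -/
def allowed (start xt xf ct cf cb : ℕ) (x : List Bool) (p : ℕ) : List (List ℕ) :=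
  [start] :: (x.map (fun b => [bif b then xt else xf]) ++ List.replicate p [ct, cf, cb])

/-- The initial clauses. -/
def initClauses (start xt xf ct cf cb : ℕ) (x : List Bool) (p T : ℕ) : List (List (Bool × ℕ)) :=
  (List.range (T + x.length + p + 2)).map fun j =>
    ((allowed start xt xf ct cf cb x p).getD j [cb]).map fun a => (true, tvar 0 j a)

/-- Blanks are followed by blanks. -/
def monoClauses (cb n p : ℕ) : List (List (Bool × ℕ)) :=
  (List.range p).map fun i => [(false, tvar 0 (n + 1 + i) cb), (true, tvar 0 (n + 1 + i + 1) cb)]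

/-- The formula of a tableau. -/
def tabFormula (tuples : List (ℕ × ℕ × ℕ × ℕ × ℕ)) (rej : List ℕ) (start xt xf ct cf cb : ℕ)
    (p q : Polynomial ℕ) (x : List Bool) : List (List (Bool × ℕ)) :=
  initClauses start xt xf ct cf cb x (p.eval x.length) (q.eval x.length) ++
    (monoClauses cb x.length (p.eval x.length) ++
      (ruleClauses tuples (q.eval x.length) ++ rejClauses rej (q.eval x.length)))

theorem poly_tabFormula (tuples : List (ℕ × ℕ × ℕ × ℕ × ℕ)) (rej : List ℕ)
    (start xt xf ct cf cb : ℕ) (p q : Polynomial ℕ) :
    Poly (tabFormula tuples rej start xt xf ct cf cb p q) := by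
  have hn : Poly (fun x : List Bool => x.length) := Poly.length Poly.id
  have hp : Poly (fun x : List Bool => p.eval x.length) := Poly.polyEval hn p
  have hq : Poly (fun x : List Bool => q.eval x.length) := Poly.polyEval hn q
  have hallowed : Poly (fun x : List Bool => allowed start xt xf ct cf cb x (p.eval x.length)) := by
    unfold allowed
    refine Poly.cons (Poly.const _) (Poly.append (Poly.map (f := fun _ b => [bif b then xt else xf])
      Poly.id (Poly.cons (Poly.cond (Poly.snd Poly.id) (Poly.const _) (Poly.const _))
        (Poly.const []))) (Poly.replicate hp (Poly.const _)))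
  unfold tabFormula
  refine Poly.append ?_ (Poly.append ?_ (Poly.append ?_ ?_))
  · unfold initClauses
    refine Poly.map (Poly.range (Poly.succ (Poly.succ (Poly.add (Poly.add hq hn) hp)))) ?_
    refine Poly.map (l := fun a : List Bool × ℕ =>
        (allowed start xt xf ct cf cb a.1 (p.eval a.1.length)).getD a.2 [cb])
      (f := fun a b => (true, tvar 0 a.2 b))
      (Poly.getD (hallowed.comp (Poly.fst Poly.id)) (Poly.snd Poly.id) (Poly.const _)) ?_
    exact Poly.pair (Poly.const true) (Poly.tvar (Poly.const 0) (Poly.snd (Poly.fst Poly.id))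
      (Poly.snd Poly.id))
  · unfold monoClauses
    refine Poly.map (l := fun x : List Bool => List.range (p.eval x.length))
      (f := fun x i => [(false, tvar 0 (x.length + 1 + i) cb),
        (true, tvar 0 (x.length + 1 + i + 1) cb)]) (Poly.range hp) ?_
    have h1 : Poly (fun a : List Bool × ℕ => a.1.length + 1 + a.2) :=
      Poly.add (Poly.succ (hn.comp (Poly.fst Poly.id))) (Poly.snd Poly.id)
    exact Poly.cons (Poly.pair (Poly.const false) (Poly.tvar (Poly.const 0) h1 (Poly.const _)))
      (Poly.cons (Poly.pair (Poly.const true) (Poly.tvar (Poly.const 0) (Poly.succ h1)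
        (Poly.const _))) (Poly.const []))
  · unfold ruleClauses
    refine Poly.flatMap (l := fun x : List Bool => List.range (q.eval x.length))
      (f := fun x t => (List.range (q.eval x.length + 1)).flatMap fun j => tuples.map fun u =>
        [(false, tvar t 0 u.1), (false, tvar t (j - 1) u.2.1), (false, tvar t j u.2.2.1),
          (false, tvar t (j + 1) u.2.2.2.1), (true, tvar (t + 1) j u.2.2.2.2)])
      (Poly.range hq) ?_
    refine Poly.flatMap (l := fun a : List Bool × ℕ => List.range (q.eval a.1.length + 1))
      (f := fun a j => tuples.map fun u =>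
        [(false, tvar a.2 0 u.1), (false, tvar a.2 (j - 1) u.2.1), (false, tvar a.2 j u.2.2.1),
          (false, tvar a.2 (j + 1) u.2.2.2.1), (true, tvar (a.2 + 1) j u.2.2.2.2)])
      (Poly.range (Poly.succ (hq.comp (Poly.fst Poly.id)))) ?_
    refine Poly.map (l := fun _ : (List Bool × ℕ) × ℕ => tuples)
      (f := fun a u => [(false, tvar a.1.2 0 u.1), (false, tvar a.1.2 (a.2 - 1) u.2.1),
        (false, tvar a.1.2 a.2 u.2.2.1), (false, tvar a.1.2 (a.2 + 1) u.2.2.2.1),
        (true, tvar (a.1.2 + 1) a.2 u.2.2.2.2)]) (Poly.const _) ?_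
    have ht : Poly (fun a : ((List Bool × ℕ) × ℕ) × (ℕ × ℕ × ℕ × ℕ × ℕ) => a.1.1.2) :=
      Poly.snd (Poly.fst (Poly.fst Poly.id))
    have hj : Poly (fun a : ((List Bool × ℕ) × ℕ) × (ℕ × ℕ × ℕ × ℕ × ℕ) => a.1.2) :=
      Poly.snd (Poly.fst Poly.id)
    have hu : Poly (fun a : ((List Bool × ℕ) × ℕ) × (ℕ × ℕ × ℕ × ℕ × ℕ) => a.2) :=
      Poly.snd Poly.id
    refine Poly.cons (Poly.pair (Poly.const _) (Poly.tvar ht (Poly.const 0) (Poly.fst hu))) ?_
    refine Poly.cons (Poly.pair (Poly.const _) (Poly.tvar ht (Poly.pred hj)
      (Poly.fst (Poly.snd hu)))) ?_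
    refine Poly.cons (Poly.pair (Poly.const _) (Poly.tvar ht hj
      (Poly.fst (Poly.snd (Poly.snd hu))))) ?_
    refine Poly.cons (Poly.pair (Poly.const _) (Poly.tvar ht (Poly.succ hj)
      (Poly.fst (Poly.snd (Poly.snd (Poly.snd hu)))))) ?_
    exact Poly.cons (Poly.pair (Poly.const _) (Poly.tvar (Poly.succ ht) hj
      (Poly.snd (Poly.snd (Poly.snd (Poly.snd hu)))))) (Poly.const [])
  · unfold rejClauses
    refine Poly.map (l := fun _ : List Bool => rej)
      (f := fun x a => [(false, tvar (q.eval x.length) 1 a)]) (Poly.const _) ?_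
    exact Poly.cons (Poly.pair (Poly.const _) (Poly.tvar (hq.comp (Poly.fst Poly.id))
      (Poly.const 1) (Poly.snd Poly.id))) (Poly.const [])

/-! ### The semantics -/

section
variable {C : Type}

/-- One step of a cellular automaton whose rule looks at cell `0` and the neighbourhood. -/
def stepRow (rule : C → C → C → C → C) (ρ : ℕ → C) : ℕ → C :=
  fun j => rule (ρ 0) (ρ (j - 1)) (ρ j) (ρ (j + 1))

/-- The initial row. -/
def initRow (start : C) (sx sc : Bool → C) (blank : C) (x c : List Bool) : ℕ → C
  | 0 => start
  | j + 1 => (x.map sx ++ c.map sc).getD j blank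

theorem exists_certificate (p : ℕ) : ∀ (B : ℕ → Bool → Prop) (E : ℕ → Prop),
    (∀ i < p, E i ∨ B i true ∨ B i false) → (∀ i, i + 1 < p → E i → E (i + 1)) →
    ∃ c : List Bool, c.length ≤ p ∧ (∀ i b, (c)[i]? = some b → B i b) ∧
      ∀ i < p, (c)[i]? = none → E i := by
  induction p with
  | zero => intro B E _ _; exact ⟨[], le_refl _, by simp, by simp⟩
  | succ p ih =>
    intro B E h1 h2
    by_cases hE : E 0
    · refine ⟨[], Nat.zero_le _, by simp, ?_⟩
      intro i hi _
      induction i with
      | zero => exact hE
      | succ i ihi => exact h2 i hi (ihi (by omega) (by simp))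
    · obtain ⟨b, hb⟩ : ∃ b, B 0 b := by
        rcases h1 0 (by omega) with h | h | h
        · exact absurd h hE
        · exact ⟨_, h⟩
        · exact ⟨_, h⟩
      obtain ⟨c, hc1, hc2, hc3⟩ := ih (fun i => B (i + 1)) (fun i => E (i + 1))
        (fun i hi => h1 (i + 1) (by omega)) (fun i hi => h2 (i + 1) (by omega))
      refine ⟨b :: c, by simpa using hc1, ?_, ?_⟩
      · intro i b' hi
        cases i with
        | zero => simp only [List.getElem?_cons_zero, Option.some.injEq] at hi; rwa [← hi]
        | succ i => exact hc2 i b' (by simpa using hi)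
      · intro i hi hn
        cases i with
        | zero => simp at hn
        | succ i => exact hc3 i (by omega) (by simpa using hn)

/-- **Tableaux as formulas.** -/
theorem tableau_sat (rule : C → C → C → C → C) (F : Set C) (hF : F.Finite)
    (closed : ∀ g ∈ F, ∀ l ∈ F, ∀ c ∈ F, ∀ r ∈ F, rule g l c r ∈ F)
    (start : C) (sx sc : Bool → C) (blank : C) (acc : C → Prop)
    (hstart : start ∈ F) (hsx : ∀ b, sx b ∈ F) (hsc : ∀ b, sc b ∈ F) (hblank : blank ∈ F)
    (hne : ∀ b, sc b ≠ blank) (p q : Polynomial ℕ) :
    ∃ Φ : List Bool → List (List (Bool × ℕ)), Poly Φ ∧ ∀ x, Sat (Φ x) ↔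
      ∃ c : List Bool, c.length ≤ p.eval x.length ∧
        acc ((stepRow rule)^[q.eval x.length] (initRow start sx sc blank x c) 1) := by
  classical
  obtain ⟨code, hcode⟩ : ∃ f : C → ℕ, Set.InjOn f F :=
    Set.countable_iff_exists_injOn.mp hF.countable
  set LF : List C := hF.toFinset.toList with hLF
  have hmem : ∀ c, c ∈ LF ↔ c ∈ F := by intro c; simp [hLF]
  set tuples : List (ℕ × ℕ × ℕ × ℕ × ℕ) :=
    LF.flatMap fun g => LF.flatMap fun l => LF.flatMap fun c => LF.map fun r =>
      (code g, code l, code c, code r, code (rule g l c r)) with htuples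
  set rej : List ℕ := (LF.filter (fun c => ¬ acc c)).map code with hrej
  have htup : ∀ u, u ∈ tuples ↔ ∃ g ∈ F, ∃ l ∈ F, ∃ c ∈ F, ∃ r ∈ F,
      u = (code g, code l, code c, code r, code (rule g l c r)) := by
    intro u
    simp only [htuples, List.mem_flatMap, List.mem_map, hmem]
    constructor
    · rintro ⟨g, hg, l, hl, c, hc, r, hr, rfl⟩; exact ⟨g, hg, l, hl, c, hc, r, hr, rfl⟩
    · rintro ⟨g, hg, l, hl, c, hc, r, hr, rfl⟩; exact ⟨g, hg, l, hl, c, hc, r, hr, rfl⟩
  have hrejm : ∀ a, a ∈ rej ↔ ∃ c ∈ F, ¬ acc c ∧ a = code c := by
    intro a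
    simp only [hrej, List.mem_map, List.mem_filter, hmem, decide_eq_true_eq]
    constructor
    · rintro ⟨c, ⟨h1, h2⟩, rfl⟩; exact ⟨c, h1, h2, rfl⟩
    · rintro ⟨c, h1, h2, rfl⟩; exact ⟨c, ⟨h1, h2⟩, rfl⟩
  refine ⟨tabFormula tuples rej (code start) (code (sx true)) (code (sx false)) (code (sc true))
    (code (sc false)) (code blank) p q, poly_tabFormula _ _ _ _ _ _ _ _ _ _, fun x => ?_⟩
  set n := x.length with hn
  set P := p.eval n with hP
  set T := q.eval n with hT
  -- the initial clauses
  have hallow : ∀ j, (allowed (code start) (code (sx true)) (code (sx false)) (code (sc true))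
      (code (sc false)) (code blank) x P).getD j [code blank] =
      if j = 0 then [code start] else if h : j - 1 < n then [code (sx x[j - 1])]
      else if j - 1 < n + P then [code (sc true), code (sc false), code blank]
      else [code blank] := by
    intro j
    cases j with
    | zero => rfl
    | succ j =>
      rw [if_neg (Nat.succ_ne_zero j)]
      simp only [Nat.add_sub_cancel, allowed, List.getD_cons_succ]
      by_cases h1 : j < n
      · rw [dif_pos h1, List.getD_append _ _ _ _ (by simpa using h1)]
        rw [List.getD_eq_getElem _ _ (by simpa using h1), List.getElem_map]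
        cases x[j] <;> rfl
      · rw [dif_neg h1, List.getD_append_right _ _ _ _ (by simpa using h1)]
        rw [List.length_map, List.getD_eq_getElem?_getD, List.getElem?_replicate]
        by_cases h2 : j < n + P
        · rw [if_pos h2, if_pos (by omega)]; rfl
        · rw [if_neg h2, if_neg (by omega)]; rfl
  constructor
  · rintro ⟨ν, hν⟩
    have hmemF : ∀ Cl, Cl ∈ tabFormula tuples rej (code start) (code (sx true)) (code (sx false))
      (code (sc true)) (code (sc false)) (code blank) p q x ↔
        (Cl ∈ initClauses (code start) (code (sx true)) (code (sx false)) (code (sc true))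
          (code (sc false)) (code blank) x P T ∨ Cl ∈ monoClauses (code blank) n P ∨
          Cl ∈ ruleClauses tuples T ∨ Cl ∈ rejClauses rej T) := by
      intro Cl; simp only [tabFormula, List.mem_append, hP, hT, hn]
    -- the variable of a cell
    have hinit : ∀ j < T + n + P + 2, ∃ a ∈ (allowed (code start) (code (sx true)) (code (sx false))
        (code (sc true)) (code (sc false)) (code blank) x P).getD j [code blank],
        ν (tvar 0 j a) = true := by
      intro j hj
      obtain ⟨l, hl, hl2⟩ := hν _ ((hmemF _).mpr (Or.inl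
        (List.mem_map.mpr ⟨j, List.mem_range.mpr hj, rfl⟩)))
      obtain ⟨a, ha, rfl⟩ := List.mem_map.mp hl
      exact ⟨a, ha, hl2⟩
    have hmono : ∀ i < P, ν (tvar 0 (n + 1 + i) (code blank)) = true →
        ν (tvar 0 (n + 1 + i + 1) (code blank)) = true := by
      intro i hi h
      obtain ⟨l, hl, hl2⟩ := hν _ ((hmemF _).mpr (Or.inr (Or.inl
        (List.mem_map.mpr ⟨i, List.mem_range.mpr hi, rfl⟩))))
      rcases List.mem_pair.mp hl with rfl | rfl
      · rw [h] at hl2; exact absurd hl2 (by simp)
      · exact hl2
    have hrule : ∀ t < T, ∀ j < T + 1, ∀ g ∈ F, ∀ l ∈ F, ∀ c ∈ F, ∀ r ∈ F,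
        ν (tvar t 0 (code g)) = true → ν (tvar t (j - 1) (code l)) = true →
        ν (tvar t j (code c)) = true → ν (tvar t (j + 1) (code r)) = true →
        ν (tvar (t + 1) j (code (rule g l c r))) = true := by
      intro t ht j hj g hg l hl c hc r hr h1 h2 h3 h4
      obtain ⟨l', hl', hl2⟩ := hν _ ((hmemF _).mpr (Or.inr (Or.inr (Or.inl
        (List.mem_flatMap.mpr ⟨t, List.mem_range.mpr ht, List.mem_flatMap.mpr
          ⟨j, List.mem_range.mpr hj, List.mem_map.mpr ⟨_, (htup _).mpr
            ⟨g, hg, l, hl, c, hc, r, hr, rfl⟩, rfl⟩⟩⟩)))))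
      simp only [List.mem_cons, List.not_mem_nil, or_false] at hl'
      rcases hl' with rfl | rfl | rfl | rfl | rfl
      · rw [h1] at hl2; exact absurd hl2 (by simp)
      · rw [h2] at hl2; exact absurd hl2 (by simp)
      · rw [h3] at hl2; exact absurd hl2 (by simp)
      · rw [h4] at hl2; exact absurd hl2 (by simp)
      · exact hl2
    have hrj : ∀ c ∈ F, ¬ acc c → ν (tvar T 1 (code c)) = false := by
      intro c hc hac
      obtain ⟨l, hl, hl2⟩ := hν _ ((hmemF _).mpr (Or.inr (Or.inr (Or.inr
        (List.mem_map.mpr ⟨code c, (hrejm _).mpr ⟨c, hc, hac, rfl⟩, rfl⟩)))))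
      rw [List.mem_singleton] at hl
      rw [hl] at hl2
      exact hl2
    obtain ⟨c, hc1, hc2, hc3⟩ := exists_certificate P
      (fun i b => ν (tvar 0 (n + 1 + i) (code (sc b))) = true)
      (fun i => ν (tvar 0 (n + 1 + i) (code blank)) = true)
      (by
        intro i hi
        obtain ⟨a, ha, ha2⟩ := hinit (n + 1 + i) (by omega)
        rw [hallow, if_neg (by omega), dif_neg (by omega), if_pos (by omega)] at ha
        simp only [List.mem_cons, List.not_mem_nil, or_false] at ha
        rcases ha with rfl | rfl | rfl
        · exact Or.inr (Or.inl ha2)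
        · exact Or.inr (Or.inr ha2)
        · exact Or.inl ha2)
      (by
        intro i hi h
        exact hmono i (by omega) h)
    refine ⟨c, hc1, ?_⟩
    -- the run
    have key : ∀ t ≤ T, ∀ j, t + j ≤ T + 1 →
        (stepRow rule)^[t] (initRow start sx sc blank x c) j ∈ F ∧
        ν (tvar t j (code ((stepRow rule)^[t] (initRow start sx sc blank x c) j))) = true := by
      intro t
      induction t with
      | zero =>
        intro _ j hj
        rw [Function.iterate_zero, id_eq]
        obtain ⟨a, ha, ha2⟩ := hinit j (by omega)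
        rw [hallow] at ha
        cases j with
        | zero =>
          rw [if_pos rfl, List.mem_singleton] at ha
          rw [ha] at ha2
          exact ⟨hstart, ha2⟩
        | succ j =>
          rw [if_neg (Nat.succ_ne_zero j)] at ha
          simp only [Nat.add_sub_cancel] at ha
          show (x.map sx ++ c.map sc).getD j blank ∈ F ∧
            ν (tvar 0 (j + 1) (code ((x.map sx ++ c.map sc).getD j blank))) = true
          by_cases h1 : j < n
          · rw [dif_pos h1, List.mem_singleton] at ha
            rw [List.getD_append _ _ _ _ (by simpa using h1),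
              List.getD_eq_getElem _ _ (by simpa using h1), List.getElem_map]
            rw [ha] at ha2
            exact ⟨hsx _, ha2⟩
          · rw [List.getD_append_right _ _ _ _ (by simpa using h1), List.length_map,
              List.getD_eq_getElem?_getD, List.getElem?_map]
            have e1 : j + 1 = n + 1 + (j - n) := by omega
            cases hb : (c)[j - n]? with
            | some b =>
              refine ⟨hsc b, ?_⟩
              have := hc2 (j - n) b hb
              rwa [← e1] at this
            | none =>
              refine ⟨hblank, ?_⟩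
              show ν (tvar 0 (j + 1) (code blank)) = true
              by_cases h2 : j < n + P
              · have := hc3 (j - n) (by omega) hb
                rwa [← e1] at this
              · rw [dif_neg h1, if_neg h2, List.mem_singleton] at ha
                rwa [ha] at ha2
      | succ t ih =>
        intro ht j hj
        rw [Function.iterate_succ_apply']
        have ih' := ih (by omega)
        obtain ⟨f0, v0⟩ := ih' 0 (by omega)
        obtain ⟨f1, v1⟩ := ih' (j - 1) (by omega)
        obtain ⟨f2, v2⟩ := ih' j (by omega)
        obtain ⟨f3, v3⟩ := ih' (j + 1) (by omega)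
        exact ⟨closed _ f0 _ f1 _ f2 _ f3, hrule t (by omega) j (by omega) _ f0 _ f1 _ f2 _ f3
          v0 v1 v2 v3⟩
    obtain ⟨f, v⟩ := key T (le_refl _) 1 (le_refl _)
    by_contra hac
    rw [hrj _ f hac] at v
    exact absurd v (by simp)
  · rintro ⟨c, hc1, hc2⟩
    set ρ : ℕ → ℕ → C := fun t => (stepRow rule)^[t] (initRow start sx sc blank x c) with hρ
    have hρF : ∀ t j, ρ t j ∈ F := by
      intro t
      induction t with
      | zero =>
        intro j
        cases j with
        | zero => exact hstart
        | succ j =>
          show (x.map sx ++ c.map sc).getD j blank ∈ F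
          rw [List.getD_eq_getElem?_getD]
          cases h : (x.map sx ++ c.map sc)[j]? with
          | none => exact hblank
          | some s =>
            have hs := List.mem_of_getElem? h
            rcases List.mem_append.mp hs with hs | hs
            · obtain ⟨b, _, rfl⟩ := List.mem_map.mp hs; exact hsx b
            · obtain ⟨b, _, rfl⟩ := List.mem_map.mp hs; exact hsc b
      | succ t ih =>
        intro j
        show (stepRow rule)^[t + 1] (initRow start sx sc blank x c) j ∈ F
        rw [Function.iterate_succ_apply']
        exact closed _ (ih _) _ (ih _) _ (ih _) _ (ih _)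
    have hρs : ∀ t j, ρ (t + 1) j = rule (ρ t 0) (ρ t (j - 1)) (ρ t j) (ρ t (j + 1)) := by
      intro t j
      show (stepRow rule)^[t + 1] (initRow start sx sc blank x c) j = _
      rw [Function.iterate_succ_apply']
      rfl
    have hρ0 : ∀ j, ρ 0 (j + 1) = (x.map sx ++ c.map sc).getD j blank := fun j => rfl
    refine ⟨fun v => decide (v.unpair.2 = code (ρ v.unpair.1.unpair.1 v.unpair.1.unpair.2)), ?_⟩
    have hval : ∀ t j a, (fun v : ℕ => decide (v.unpair.2 =
        code (ρ v.unpair.1.unpair.1 v.unpair.1.unpair.2))) (tvar t j a)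
        = decide (a = code (ρ t j)) := by
      intro t j a
      simp [tvar]
    set ν : ℕ → Bool := fun v => decide (v.unpair.2 =
      code (ρ v.unpair.1.unpair.1 v.unpair.1.unpair.2)) with hνd
    intro Cl hCl
    simp only [tabFormula, List.mem_append] at hCl
    rcases hCl with hCl | hCl | hCl | hCl
    · obtain ⟨j, hj, rfl⟩ := List.mem_map.mp hCl
      refine ⟨(true, tvar 0 j (code (ρ 0 j))), List.mem_map.mpr ⟨_, ?_, rfl⟩, ?_⟩
      · show code (ρ 0 j) ∈ (allowed (code start) (code (sx true)) (code (sx false))
          (code (sc true)) (code (sc false)) (code blank) x P).getD j [code blank]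
        rw [hallow]
        cases j with
        | zero => rw [if_pos rfl]; exact List.mem_singleton.mpr rfl
        | succ j =>
          rw [if_neg (Nat.succ_ne_zero j), hρ0]
          simp only [Nat.add_sub_cancel]
          by_cases h1 : j < n
          · rw [dif_pos h1, List.getD_append _ _ _ _ (by simpa using h1),
              List.getD_eq_getElem _ _ (by simpa using h1), List.getElem_map]
            exact List.mem_singleton.mpr rfl
          · rw [dif_neg h1, List.getD_append_right _ _ _ _ (by simpa using h1), List.length_map,
              List.getD_eq_getElem?_getD, List.getElem?_map]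
            cases hb : (c)[j - x.length]? with
            | some b =>
              have hlt : j - x.length < c.length := by
                by_contra hcon
                rw [List.getElem?_eq_none (by omega)] at hb
                exact absurd hb (by simp)
              rw [if_pos (by omega)]
              cases b <;> simp
            | none =>
              by_cases h2 : j < n + P
              · rw [if_pos h2]; simp
              · rw [if_neg h2]; simp
      · rw [hval]; simp
    · obtain ⟨i, hi, rfl⟩ := List.mem_map.mp hCl
      by_cases h : ρ 0 (x.length + 1 + i) = blank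
      · refine ⟨(true, tvar 0 (x.length + 1 + i + 1) (code blank)), by simp, ?_⟩
        rw [hval, decide_eq_true_eq]
        have e1 : x.length + 1 + i = (x.length + i) + 1 := by omega
        rw [e1, hρ0] at h
        rw [e1, hρ0]
        rw [List.getD_append_right _ _ _ _ (by simp), List.length_map,
          List.getD_eq_getElem?_getD, List.getElem?_map] at h
        rw [List.getD_append_right _ _ _ _ (by simp; omega), List.length_map,
          List.getD_eq_getElem?_getD, List.getElem?_map]
        have e2 : x.length + i - x.length = i := by omega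
        have e3 : x.length + i + 1 - x.length = i + 1 := by omega
        rw [e2] at h
        rw [e3]
        cases hb : (c)[i]? with
        | some b => rw [hb] at h; exact absurd h (hne b)
        | none =>
          have : (c)[i + 1]? = none := by
            rw [List.getElem?_eq_none_iff] at hb ⊢
            omega
          rw [this]
          rfl
      · refine ⟨(false, tvar 0 (x.length + 1 + i) (code blank)), by simp, ?_⟩
        rw [hval, decide_eq_false_iff_not]
        intro h'
        exact h (hcode (hρF _ _) hblank h'.symm)
    · obtain ⟨t, ht, hCl⟩ := List.mem_flatMap.mp hCl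
      obtain ⟨j, hj, hCl⟩ := List.mem_flatMap.mp hCl
      obtain ⟨u, hu, rfl⟩ := List.mem_map.mp hCl
      obtain ⟨g, hg, l, hl, c', hc', r, hr, rfl⟩ := (htup u).mp hu
      by_cases h1 : g = ρ t 0
      · by_cases h2 : l = ρ t (j - 1)
        · by_cases h3 : c' = ρ t j
          · by_cases h4 : r = ρ t (j + 1)
            · refine ⟨(true, tvar (t + 1) j (code (rule g l c' r))), by simp, ?_⟩
              rw [hval, decide_eq_true_eq, hρs, h1, h2, h3, h4]
            · refine ⟨(false, tvar t (j + 1) (code r)), by simp, ?_⟩
              rw [hval, decide_eq_false_iff_not]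
              exact fun h => h4 (hcode hr (hρF _ _) h)
          · refine ⟨(false, tvar t j (code c')), by simp, ?_⟩
            rw [hval, decide_eq_false_iff_not]
            exact fun h => h3 (hcode hc' (hρF _ _) h)
        · refine ⟨(false, tvar t (j - 1) (code l)), by simp, ?_⟩
          rw [hval, decide_eq_false_iff_not]
          exact fun h => h2 (hcode hl (hρF _ _) h)
      · refine ⟨(false, tvar t 0 (code g)), by simp, ?_⟩
        rw [hval, decide_eq_false_iff_not]
        exact fun h => h1 (hcode hg (hρF _ _) h)
    · obtain ⟨a, ha, rfl⟩ := List.mem_map.mp hCl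
      obtain ⟨c', hc', hac, rfl⟩ := (hrejm a).mp ha
      refine ⟨(false, tvar (q.eval x.length) 1 (code c')), by simp, ?_⟩
      rw [hval, decide_eq_false_iff_not]
      intro h
      have := hcode hc' (hρF _ _) h
      rw [this] at hac
      exact hac hc2

end

end Pool.Agent.Helper86.PT
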