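import Mathlib

/-!
The class NP and NP-hardness, in terms of Mathlib's polynomial time stack machines.
-/

set_option autoImplicit false

namespace Pool.Agent.Helper86.NP

open Turing Computability

/-- The class NP: `L ⊆ {0,1}*` belongs to NP when there are a polynomial `p` and a predicate `V` on
pairs of strings, computable in polynomial time, such that `x ∈ L` iff `V (x, c)` holds for some
string `c` of length at most `p(|x|)`.  Pairs of strings are encoded over a four letter alphabet
with Mathlib's encoding `encodingProd` of pairs, and polynomial time is Mathlib's
`TM2ComputableInPolyTime`. -/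
def InNP (L : Set (List Bool)) : Prop :=
  ∃ (p : Polynomial ℕ) (V : List Bool × List Bool → Bool),
    Nonempty (TM2ComputableInPolyTime
      (encodingProd (encodingList Bool) (encodingList Bool)).encode encodingBoolBool.encode V) ∧
    ∀ x : List Bool, x ∈ L ↔ ∃ c : List Bool, c.length ≤ p.eval x.length ∧ V (x, c) = true

/-- NP-hardness of the decision problem `P` on instances `α` that are encoded as strings by `enc`:
every problem in NP has a polynomial time many-one reduction to `P`. -/
def NPHard {α : Type} (enc : Encoding α Bool) (P : Set α) : Prop :=
  ∀ L : Set (List Bool), InNP L → ∃ f : List Bool → α,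
    Nonempty (TM2ComputableInPolyTime (encodingList Bool).encode enc.encode f) ∧
    ∀ x : List Bool, x ∈ L ↔ f x ∈ P

end Pool.Agent.Helper86.NP
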