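import Mathlib

/-!
Machines with stacks as cellular automata.
-/

set_option autoImplicit false

namespace Pool.Agent.Helper86.Sim

open Turing Turing.TM2 Function

variable {K : Type} {Γ : K → Type} {Λ σ : Type}

/-! ### Small steps -/

/-- The next statement and internal state. -/
def gnext (M : Λ → Stmt Γ Λ σ) : Option (Stmt Γ Λ σ) → σ → (∀ k, Option (Γ k)) →
    Option (Stmt Γ Λ σ) × σ
  | none, v, _ => (none, v)
  | some (.push _ _ q), v, _ => (some q, v)
  | some (.peek k f q), v, t => (some q, f v (t k))
  | some (.pop k f q), v, t => (some q, f v (t k))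
  | some (.load a q), v, _ => (some q, a v)
  | some (.branch f q₁ q₂), v, _ => (some (cond (f v) q₁ q₂), v)
  | some (.goto f), v, _ => (some (M (f v)), v)
  | some .halt, v, _ => (none, v)

/-- Stack operations. -/
inductive Act (Γ : K → Type) : Type
  | push (k : K) (a : Γ k) : Act Γ
  | pop (k : K) : Act Γ
  | keep : Act Γ

/-- The operation of a statement. -/
def act : Option (Stmt Γ Λ σ) → σ → Act Γ
  | some (.push k f _), v => .push k (f v)
  | some (.pop k _ _), _ => .pop k
  | _, _ => .keep

variable [DecidableEq K]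

/-- Applying an operation. -/
def Act.app : Act Γ → (∀ k, List (Γ k)) → ∀ k, List (Γ k)
  | .push k a, S => update S k (a :: S k)
  | .pop k, S => update S k (S k).tail
  | .keep, S => S

/-- Configurations for small steps. -/
abbrev MCfg (Γ : K → Type) (Λ σ : Type) : Type :=
  Option (Stmt Γ Λ σ) × σ × (∀ k, List (Γ k))

/-- A small step. -/
def mstep (M : Λ → Stmt Γ Λ σ) (c : MCfg Γ Λ σ) : MCfg Γ Λ σ :=
  ((gnext M c.1 c.2.1 (fun k => (c.2.2 k).head?)).1,
    (gnext M c.1 c.2.1 (fun k => (c.2.2 k).head?)).2, (act c.1 c.2.1).app c.2.2)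

/-- The small step configuration of a configuration. -/
def emb (M : Λ → Stmt Γ Λ σ) (c : Cfg Γ Λ σ) : MCfg Γ Λ σ := (c.l.map M, c.var, c.stk)

/-- The size of a statement. -/
def ssz : Stmt Γ Λ σ → ℕ
  | .push _ _ q => ssz q + 1
  | .peek _ _ q => ssz q + 1
  | .pop _ _ q => ssz q + 1
  | .load _ q => ssz q + 1
  | .branch _ q₁ q₂ => ssz q₁ + ssz q₂ + 1
  | .goto _ => 1
  | .halt => 1

theorem sim_stmt (M : Λ → Stmt Γ Λ σ) (q : Stmt Γ Λ σ) : ∀ (v : σ) (S : ∀ k, List (Γ k)),
    ∃ n ≤ ssz q, (mstep M)^[n] (some q, v, S) = emb M (stepAux q v S) := by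
  induction q with
  | push k f q ih =>
    intro v S
    obtain ⟨n, hn, h⟩ := ih v (update S k (f v :: S k))
    exact ⟨n + 1, Nat.succ_le_succ hn, by rw [iterate_succ_apply]; exact h⟩
  | peek k f q ih =>
    intro v S
    obtain ⟨n, hn, h⟩ := ih (f v (S k).head?) S
    exact ⟨n + 1, Nat.succ_le_succ hn, by rw [iterate_succ_apply]; exact h⟩
  | pop k f q ih =>
    intro v S
    obtain ⟨n, hn, h⟩ := ih (f v (S k).head?) (update S k (S k).tail)
    exact ⟨n + 1, Nat.succ_le_succ hn, by rw [iterate_succ_apply]; exact h⟩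
  | load a q ih =>
    intro v S
    obtain ⟨n, hn, h⟩ := ih (a v) S
    exact ⟨n + 1, Nat.succ_le_succ hn, by rw [iterate_succ_apply]; exact h⟩
  | branch f q₁ q₂ ih₁ ih₂ =>
    intro v S
    cases hf : f v with
    | true =>
      obtain ⟨n, hn, h⟩ := ih₁ v S
      refine ⟨n + 1, by simp only [ssz]; omega, ?_⟩
      rw [iterate_succ_apply]
      have e : mstep M (some (.branch f q₁ q₂), v, S) = (some q₁, v, S) := by
        show ((some (cond (f v) q₁ q₂), v, S) : MCfg Γ Λ σ) = _
        rw [hf]; rfl
      rw [e, h]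
      simp only [stepAux, hf, cond_true]
    | false =>
      obtain ⟨n, hn, h⟩ := ih₂ v S
      refine ⟨n + 1, by simp only [ssz]; omega, ?_⟩
      rw [iterate_succ_apply]
      have e : mstep M (some (.branch f q₁ q₂), v, S) = (some q₂, v, S) := by
        show ((some (cond (f v) q₁ q₂), v, S) : MCfg Γ Λ σ) = _
        rw [hf]; rfl
      rw [e, h]
      simp only [stepAux, hf, cond_false]
  | goto f =>
    intro v S
    exact ⟨1, le_refl _, rfl⟩
  | halt =>
    intro v S
    exact ⟨1, le_refl _, rfl⟩

theorem flip_bind_none {τ : Type*} (f : τ → Option τ) (n : ℕ) :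
    (flip bind f)^[n] none = none := by
  induction n with
  | zero => rfl
  | succ n ih => rw [iterate_succ_apply]; exact ih

theorem sim_steps (M : Λ → Stmt Γ Λ σ) (C : ℕ) (hC : ∀ l, ssz (M l) ≤ C) (n : ℕ) :
    ∀ c c' : Cfg Γ Λ σ, (flip bind (step M))^[n] (some c) = some c' →
    ∃ n' ≤ C * n, (mstep M)^[n'] (emb M c) = emb M c' := by
  induction n with
  | zero =>
    intro c c' h
    simp only [iterate_zero, id_eq, Option.some.injEq] at h
    exact ⟨0, le_refl _, by rw [h]; rfl⟩
  | succ n ih =>
    intro c c' h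
    rw [iterate_succ_apply] at h
    obtain ⟨l, v, S⟩ := c
    cases l with
    | none =>
      have : flip bind (step M) (some (⟨none, v, S⟩ : Cfg Γ Λ σ)) = none := rfl
      rw [this, flip_bind_none] at h
      exact absurd h (by simp)
    | some l =>
      have : flip bind (step M) (some (⟨some l, v, S⟩ : Cfg Γ Λ σ)) =
        some (stepAux (M l) v S) := rfl
      rw [this] at h
      obtain ⟨n', hn', h'⟩ := ih _ _ h
      obtain ⟨n'', hn'', h''⟩ := sim_stmt M (M l) v S
      refine ⟨n' + n'', ?_, ?_⟩
      · have := hC l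
        rw [Nat.mul_succ]
        omega
      · rw [iterate_add_apply]
        have e : emb M (⟨some l, v, S⟩ : Cfg Γ Λ σ) = (some (M l), v, S) := rfl
        rw [e, h'', h']

theorem mstep_halt (M : Λ → Stmt Γ Λ σ) (v : σ) (S : ∀ k, List (Γ k)) (n : ℕ) :
    (mstep M)^[n] (none, v, S) = (none, v, S) := by
  induction n with
  | zero => rfl
  | succ n ih => rw [iterate_succ_apply]; exact ih

/-- After enough small steps the halting configuration is reached. -/
theorem sim_halt (M : Λ → Stmt Γ Λ σ) (C : ℕ) (hC : ∀ l, ssz (M l) ≤ C) (n : ℕ)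
    (c : Cfg Γ Λ σ) (v : σ) (S : ∀ k, List (Γ k))
    (h : (flip bind (step M))^[n] (some c) = some ⟨none, v, S⟩) (N : ℕ) (hN : C * n ≤ N) :
    (mstep M)^[N] (emb M c) = (none, v, S) := by
  obtain ⟨n', hn', h'⟩ := sim_steps M C hC n _ _ h
  obtain ⟨d, rfl⟩ := Nat.exists_eq_add_of_le' (hn'.trans hN)
  rw [iterate_add_apply, h']
  exact mstep_halt M v S d

/-! ### Rows -/

/-- The cells of the automaton. -/
abbrev Cell (Γ : K → Type) (Λ σ : Type) : Type :=
  (Option (Stmt Γ Λ σ) × σ) ⊕ (∀ k, Option (Γ k))

/-- The row of a configuration. -/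
def row (c : MCfg Γ Λ σ) : ℕ → Cell Γ Λ σ
  | 0 => .inl (c.1, c.2.1)
  | j + 1 => .inr (fun k => (c.2.2 k)[j]?)

/-- The symbol of a cell. -/
def sym (c : Cell Γ Λ σ) (k : K) : Option (Γ k) :=
  match c with
  | .inl _ => none
  | .inr s => s k

/-- The stack content after an operation. -/
def Act.cell (a : Act Γ) (l : Cell Γ Λ σ) (s : ∀ k, Option (Γ k)) (r : Cell Γ Λ σ) :
    ∀ k, Option (Γ k) :=
  match a with
  | .push k a => update s k (match l with | .inl _ => some a | .inr s' => s' k)
  | .pop k => update s k (sym r k)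
  | .keep => s

/-- The rule of the automaton. -/
def rule (M : Λ → Stmt Γ Λ σ) (g l c r : Cell Γ Λ σ) : Cell Γ Λ σ :=
  match c, g with
  | .inl p, _ => .inl (gnext M p.1 p.2 (sym r))
  | .inr s, .inl p => .inr ((act p.1 p.2).cell l s r)
  | .inr s, .inr _ => .inr s

theorem row_step (M : Λ → Stmt Γ Λ σ) (c : MCfg Γ Λ σ) (j : ℕ) :
    row (mstep M c) j = rule M (row c 0) (row c (j - 1)) (row c j) (row c (j + 1)) := by
  obtain ⟨q, v, S⟩ := c
  cases j with
  | zero =>
    show Sum.inl _ = Sum.inl _
    congr 1
    have e : (fun k => (S k).head?) = sym (row ((q, v, S) : MCfg Γ Λ σ) (0 + 1)) := by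
      funext k
      show (S k).head? = (S k)[0]?
      exact List.head?_eq_getElem?
    show ((gnext M q v (fun k => (S k).head?)).1, (gnext M q v (fun k => (S k).head?)).2) = _
    rw [e]
  | succ j =>
    show Sum.inr (fun k => ((act q v).app S k)[j]?) =
      Sum.inr ((act q v).cell (row ((q, v, S) : MCfg Γ Λ σ) j) (fun k => (S k)[j]?)
        (row ((q, v, S) : MCfg Γ Λ σ) (j + 2)))
    congr 1
    funext k
    cases act q v with
    | keep => rfl
    | pop k' =>
      simp only [Act.app, Act.cell]
      by_cases hk : k = k'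
      · subst hk
        rw [update_self, update_self]
        show (S k).tail[j]? = (S k)[j + 1]?
        rw [List.getElem?_tail]
      · rw [update_of_ne hk, update_of_ne hk]
    | push k' a =>
      simp only [Act.app, Act.cell]
      by_cases hk : k = k'
      · subst hk
        rw [update_self, update_self]
        cases j with
        | zero => rfl
        | succ j => rfl
      · rw [update_of_ne hk, update_of_ne hk]

theorem row_iterate (M : Λ → Stmt Γ Λ σ) (c : MCfg Γ Λ σ) (n : ℕ) :
    row ((mstep M)^[n] c) =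
      (fun (ρ : ℕ → Cell Γ Λ σ) (j : ℕ) => rule M (ρ 0) (ρ (j - 1)) (ρ j) (ρ (j + 1)))^[n]
        (row c) := by
  induction n with
  | zero => rfl
  | succ n ih =>
    rw [iterate_succ_apply', iterate_succ_apply', ← ih]
    funext j
    exact row_step M _ j

/-! ### Finiteness -/

section
variable [Fintype K] [Fintype Λ] [Fintype σ] (M : Λ → Stmt Γ Λ σ) (k₀ : K)

/-- The symbols that can occur on stack `k`. -/
def symbols (k : K) : Set (Γ k) :=
  {a | (∃ q ∈ stmts M Finset.univ, ∃ v : σ, act q v = Act.push k a) ∨ k = k₀}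

/-- The cells that can occur. -/
def cells : Set (Cell Γ Λ σ) :=
  {c | match c with
    | .inl p => p.1 ∈ stmts M Finset.univ
    | .inr s => ∀ k, ∀ a, s k = some a → a ∈ symbols M k₀ k}

omit [Fintype K] in
theorem symbols_finite (hk₀ : Finite (Γ k₀)) (k : K) : (symbols M k₀ k).Finite := by
  have h1 : {a : Γ k | ∃ q ∈ stmts M Finset.univ, ∃ v : σ, act q v = Act.push k a}.Finite := by
    have h2 : (Set.image2 (fun (q : Option (Stmt Γ Λ σ)) (v : σ) => act q v)
        (stmts M Finset.univ : Set (Option (Stmt Γ Λ σ))) Set.univ).Finite :=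
      (Finset.finite_toSet _).image2 _ Set.finite_univ
    have h3 : Function.Injective (fun a : Γ k => Act.push k a) := by
      intro a b h
      simpa using h
    refine (h2.preimage h3.injOn).subset ?_
    rintro a ⟨q, hq, v, hv⟩
    exact ⟨q, by simpa using hq, v, Set.mem_univ _, hv⟩
  by_cases hk : k = k₀
  · subst hk
    exact Set.toFinite _
  · refine h1.subset ?_
    rintro a (h | h)
    · exact h
    · exact absurd h hk

theorem cells_finite (hk₀ : Finite (Γ k₀)) : (cells M k₀).Finite := by
  have h1 : ((fun p : Option (Stmt Γ Λ σ) × σ => (Sum.inl p : Cell Γ Λ σ)) ''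
      ((stmts M Finset.univ : Set (Option (Stmt Γ Λ σ))) ×ˢ Set.univ)).Finite :=
    ((Finset.finite_toSet _).prod Set.finite_univ).image _
  have h2 : ((fun s : ∀ k, Option (Γ k) => (Sum.inr s : Cell Γ Λ σ)) ''
      (Set.pi Set.univ (fun k => insert none (some '' symbols M k₀ k)))).Finite := by
    refine (Set.Finite.pi (fun k => ?_)).image _
    exact ((symbols_finite M k₀ hk₀ k).image _).insert _
  refine (h1.union h2).subset ?_
  rintro (p | s) h
  · exact Or.inl ⟨p, ⟨h, Set.mem_univ _⟩, rfl⟩
  · refine Or.inr ⟨s, ?_, rfl⟩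
    intro k _
    cases hs : s k with
    | none => exact Set.mem_insert _ _
    | some a => exact Set.mem_insert_of_mem _ ⟨a, h k a hs, rfl⟩

omit [DecidableEq K] [Fintype K] [Fintype σ] in
theorem stmts_label (l : Λ) : some (M l) ∈ stmts M Finset.univ := by
  classical
  simp only [stmts, Finset.some_mem_insertNone, Finset.mem_biUnion, Finset.mem_univ, true_and]
  exact ⟨l, stmts₁_self⟩

omit [DecidableEq K] [Fintype K] [Fintype σ] in
theorem stmts_none : none ∈ stmts M Finset.univ := by
  classical
  simp [stmts]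

omit [DecidableEq K] [Fintype K] [Fintype σ] in
theorem gnext_mem (q : Option (Stmt Γ Λ σ)) (v : σ) (t : ∀ k, Option (Γ k))
    (hq : q ∈ stmts M Finset.univ) : (gnext M q v t).1 ∈ stmts M Finset.univ := by
  classical
  cases q with
  | none => exact hq
  | some q =>
    cases q with
    | push k f q =>
      exact stmts_trans (by rw [stmts₁]; exact Finset.mem_insert_of_mem stmts₁_self) hq
    | peek k f q =>
      exact stmts_trans (by rw [stmts₁]; exact Finset.mem_insert_of_mem stmts₁_self) hq
    | pop k f q =>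
      exact stmts_trans (by rw [stmts₁]; exact Finset.mem_insert_of_mem stmts₁_self) hq
    | load a q =>
      exact stmts_trans (by rw [stmts₁]; exact Finset.mem_insert_of_mem stmts₁_self) hq
    | branch f q₁ q₂ =>
      show some (cond (f v) q₁ q₂) ∈ _
      cases f v with
      | true =>
        refine stmts_trans (q₂ := .branch f q₁ q₂) ?_ hq
        rw [stmts₁]
        exact Finset.mem_insert_of_mem (Finset.mem_union_left _ stmts₁_self)
      | false =>
        refine stmts_trans (q₂ := .branch f q₁ q₂) ?_ hq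
        rw [stmts₁]
        exact Finset.mem_insert_of_mem (Finset.mem_union_right _ stmts₁_self)
    | goto f => exact stmts_label M (f v)
    | halt => exact stmts_none M

omit [DecidableEq K] [Fintype K] [Fintype σ] in
theorem sym_mem {c : Cell Γ Λ σ} (hc : c ∈ cells M k₀) {k : K} {a : Γ k}
    (h : sym c k = some a) : a ∈ symbols M k₀ k := by
  cases c with
  | inl p => exact absurd h (by simp [sym])
  | inr s => exact hc k a h

omit [Fintype K] [Fintype σ] in
theorem rule_mem {g l c r : Cell Γ Λ σ} (hg : g ∈ cells M k₀) (hl : l ∈ cells M k₀)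
    (hc : c ∈ cells M k₀) (hr : r ∈ cells M k₀) : rule M g l c r ∈ cells M k₀ := by
  cases c with
  | inl p => exact gnext_mem M p.1 p.2 _ hc
  | inr s =>
    cases g with
    | inr _ => exact hc
    | inl p =>
      intro k a h
      change (act p.1 p.2).cell l s r k = some a at h
      cases hact : act p.1 p.2 with
      | keep => rw [hact] at h; exact hc k a h
      | pop k' =>
        rw [hact] at h
        simp only [Act.cell] at h
        by_cases hk : k = k'
        · subst hk
          rw [update_self] at h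
          exact sym_mem M k₀ hr h
        · rw [update_of_ne hk] at h
          exact hc k a h
      | push k' b =>
        rw [hact] at h
        simp only [Act.cell] at h
        by_cases hk : k = k'
        · subst hk
          rw [update_self] at h
          cases l with
          | inl p' =>
            simp only [Option.some.injEq] at h
            subst h
            exact Or.inl ⟨p.1, hg, p.2, hact⟩
          | inr s' => exact hl k a h
        · rw [update_of_ne hk] at h
          exact hc k a h

end

end Pool.Agent.Helper86.Sim
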