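import Pool.Agent.Helper86.Poly.Tableau
import Pool.Agent.Helper86.Poly.Sim
import Pool.Agent.Helper86.Poly.NPDef

/-!
The Cook-Levin theorem.
-/

set_option autoImplicit false

namespace Pool.Agent.Helper86.NP

open Turing Computability Sim

theorem eval_mono_nat (p : Polynomial ℕ) {a b : ℕ} (h : a ≤ b) : p.eval a ≤ p.eval b := by
  induction p using Polynomial.induction_on' with
  | add p q hp hq => rw [Polynomial.eval_add, Polynomial.eval_add]; exact Nat.add_le_add hp hq
  | monomial n c =>
    rw [Polynomial.eval_monomial, Polynomial.eval_monomial]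
    exact Nat.mul_le_mul_left _ (Nat.pow_le_pow_left h n)

/-- **Cook-Levin theorem.** Every problem in NP reduces in polynomial time to satisfiability. -/
theorem cook_levin {L : Set (List Bool)} (hL : InNP L) :
    ∃ Φ : List Bool → List (List (Bool × ℕ)), PT.Poly Φ ∧ ∀ x, x ∈ L ↔ PT.Sat (Φ x) := by
  obtain ⟨p, V, ⟨h⟩, hV⟩ := hL
  let _ : DecidableEq h.tm.K := h.tm.kDecidableEq
  let _ : Fintype h.tm.K := h.tm.kFin
  let _ : Fintype h.tm.Λ := h.tm.ΛFin
  let _ : Fintype h.tm.σ := h.tm.σFin
  let _ : Fintype (h.tm.Γ h.tm.k₀) := h.tm.Γk₀Fin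
  obtain ⟨C, hC⟩ : ∃ C, ∀ l, ssz (h.tm.m l) ≤ C :=
    ⟨Finset.univ.sup fun l => ssz (h.tm.m l), fun l =>
      Finset.le_sup (f := fun l => ssz (h.tm.m l)) (Finset.mem_univ l)⟩
  set q : Polynomial ℕ := Polynomial.C C * (h.time.comp (Polynomial.X + p)) with hq
  have hqe : ∀ n, q.eval n = C * h.time.eval (n + p.eval n) := by
    intro n
    simp only [hq, Polynomial.eval_mul, Polynomial.eval_C, Polynomial.eval_comp,
      Polynomial.eval_add, Polynomial.eval_X]
  let one : Option (h.tm.Γ h.tm.k₀) → Cell h.tm.Γ h.tm.Λ h.tm.σ := fun a =>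
    Sum.inr (Function.update (fun _ => none) h.tm.k₀ a)
  let start : Cell h.tm.Γ h.tm.Λ h.tm.σ := Sum.inl (some (h.tm.m h.tm.main), h.tm.initialState)
  let sx : Bool → Cell h.tm.Γ h.tm.Λ h.tm.σ := fun b =>
    one (some (h.inputAlphabet.invFun (Sum.inl b)))
  let sc : Bool → Cell h.tm.Γ h.tm.Λ h.tm.σ := fun b =>
    one (some (h.inputAlphabet.invFun (Sum.inr b)))
  let acc : Cell h.tm.Γ h.tm.Λ h.tm.σ → Prop := fun c =>
    sym c h.tm.k₁ = some (h.outputAlphabet.invFun true)
  have hone : ∀ a, one a ∈ cells h.tm.m h.tm.k₀ := by
    intro a k b hb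
    by_cases hk : k = h.tm.k₀
    · exact Or.inr hk
    · change Function.update (fun _ => none) h.tm.k₀ a k = some b at hb
      rw [Function.update_of_ne hk] at hb
      exact absurd hb (by simp)
  obtain ⟨Φ, hΦ, hΦ'⟩ := PT.tableau_sat (rule h.tm.m) (cells h.tm.m h.tm.k₀)
    (cells_finite h.tm.m h.tm.k₀ inferInstance)
    (fun g hg l hl c hc r hr => rule_mem h.tm.m h.tm.k₀ hg hl hc hr)
    start sx sc (one none) acc (stmts_label h.tm.m h.tm.main) (fun b => hone _) (fun b => hone _)
    (hone _) (fun b hb => by
      have h1 := congrArg (fun c => sym c h.tm.k₀) hb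
      change Function.update (fun _ => none) h.tm.k₀ (some _) h.tm.k₀ =
        Function.update (fun _ => none) h.tm.k₀ none h.tm.k₀ at h1
      rw [Function.update_self, Function.update_self] at h1
      exact absurd h1 (by simp)) p q
  refine ⟨Φ, hΦ, fun x => ?_⟩
  rw [hV, hΦ']
  refine exists_congr (fun c => and_congr_right (fun hc => ?_))
  -- the initial row
  set w : List (h.tm.Γ h.tm.k₀) := List.map h.inputAlphabet.invFun
    ((encodingProd (encodingList Bool) (encodingList Bool)).encode (x, c)) with hw
  have hw' : w = x.map (fun b => h.inputAlphabet.invFun (Sum.inl b)) ++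
      c.map (fun b => h.inputAlphabet.invFun (Sum.inr b)) := by
    simp only [hw, encodingProd, encodingList, List.map_append, List.map_map, id_eq]
    rfl
  have hlen : ((encodingProd (encodingList Bool) (encodingList Bool)).encode (x, c)).length
      = x.length + c.length := by
    simp [encodingProd, encodingList]
  have hrow : row (emb h.tm.m (initList h.tm w)) = PT.initRow start sx sc (one none) x c := by
    funext j
    cases j with
    | zero => rfl
    | succ j =>
      have e1 : x.map sx ++ c.map sc = w.map (fun a => one (some a)) := by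
        rw [hw', List.map_append, List.map_map, List.map_map]
        rfl
      show _ = (x.map sx ++ c.map sc).getD j (one none)
      rw [e1, List.getD_eq_getElem?_getD, List.getElem?_map]
      have e2 : (Option.map (fun a => one (some a)) w[j]?).getD (one none) = one w[j]? := by
        cases w[j]? <;> rfl
      rw [e2]
      show Sum.inr (fun k => ((initList h.tm w).stk k)[j]?) = _
      congr 1
      funext k
      by_cases hk : k = h.tm.k₀
      · subst hk
        rw [Function.update_self]
        have : (initList h.tm w).stk h.tm.k₀ = w := by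
          simp [initList]
        rw [this]
      · rw [Function.update_of_ne hk]
        have : (initList h.tm w).stk k = [] := by
          simp [initList, hk]
        rw [this]
        rfl
  -- the run
  have hrun := h.outputsFun (x, c)
  have hsteps := hrun.evals_in_steps
  have hle := hrun.steps_le_m
  have hT : C * hrun.steps ≤ q.eval x.length := by
    rw [hqe]
    refine Nat.mul_le_mul_left _ (hle.trans ?_)
    rw [hlen]
    exact eval_mono_nat h.time (by omega)
  have hfin := sim_halt h.tm.m C hC hrun.steps (initList h.tm w) h.tm.initialState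
    (haltList h.tm (List.map h.outputAlphabet.invFun (encodingBoolBool.encode (V (x, c))))).stk
    hsteps (q.eval x.length) hT
  have hfin' := congrArg row hfin
  rw [row_iterate, hrow] at hfin'
  show V (x, c) = true ↔ acc ((PT.stepRow (rule h.tm.m))^[q.eval x.length]
    (PT.initRow start sx sc (one none) x c) 1)
  have e3 : (PT.stepRow (rule h.tm.m))^[q.eval x.length]
      (PT.initRow start sx sc (one none) x c) = row (none, h.tm.initialState,
        (haltList h.tm (List.map h.outputAlphabet.invFun
          (encodingBoolBool.encode (V (x, c))))).stk) := hfin'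
  rw [e3]
  have e4 : (haltList h.tm (List.map h.outputAlphabet.invFun
      (encodingBoolBool.encode (V (x, c))))).stk h.tm.k₁ = [h.outputAlphabet.invFun (V (x, c))] := by
    simp [haltList, encodingBoolBool, encodeBool]
  show _ ↔ ((haltList h.tm (List.map h.outputAlphabet.invFun
      (encodingBoolBool.encode (V (x, c))))).stk h.tm.k₁)[0]? = some (h.outputAlphabet.invFun true)
  rw [e4]
  constructor
  · intro hv; rw [hv]; rfl
  · intro hv
    have := Option.some.inj hv
    exact h.outputAlphabet.symm.injective this

end Pool.Agent.Helper86.NP
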