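import Pool.Agent.Helper86.Poly.Machine

/-!
A library of polynomial time functions.
-/

set_option autoImplicit false

namespace Pool.Agent.Helper86.PT

open Function (update)

/-! ### Representations -/

/-- Unary representation of natural numbers. -/
def natT : ℕ → T
  | 0 => .nil
  | n + 1 => .cons .nil (natT n)

instance : TEnc ℕ where
  toT := natT
  inj := by
    intro a
    induction a with
    | zero => intro b h; cases b with
      | zero => rfl
      | succ b => simp [natT] at h
    | succ a ih => intro b h; cases b with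
      | zero => simp [natT] at h
      | succ b =>
        simp only [natT, T.cons.injEq, true_and] at h
        rw [ih h]

instance {α β : Type} [TEnc α] [TEnc β] : TEnc (α × β) where
  toT p := .cons (toT p.1) (toT p.2)
  inj := by
    rintro ⟨a, b⟩ ⟨c, d⟩ h
    simp only [T.cons.injEq] at h
    rw [TEnc.inj h.1, TEnc.inj h.2]

instance {α : Type} [TEnc α] {p : α → Prop} : TEnc {a : α // p a} where
  toT a := toT a.1
  inj := fun _ _ h => Subtype.ext (TEnc.inj h)

@[simp] theorem toT_zero : toT (0 : ℕ) = T.nil := rfl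
@[simp] theorem toT_succ (n : ℕ) : toT (n + 1) = T.cons T.nil (toT n) := rfl
@[simp] theorem toT_pair {α β : Type} [TEnc α] [TEnc β] (a : α) (b : β) :
    toT (a, b) = T.cons (toT a) (toT b) := rfl
@[simp] theorem toT_true : toT true = T.cons T.nil T.nil := rfl
@[simp] theorem toT_false : toT false = T.nil := rfl
theorem toT_val {α : Type} [TEnc α] {p : α → Prop} (a : {a : α // p a}) : toT a = toT a.1 := rfl

theorem nodes_nat (n : ℕ) : (toT n).nodes = n := by
  induction n with
  | zero => rfl
  | succ n ih => rw [toT_succ, T.nodes, ih]; simp [T.nodes]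

theorem tsz_nat (n : ℕ) : tsz n = 2 * n + 1 := by
  unfold tsz; rw [T.size_eq, nodes_nat]

theorem tsz_pair {α β : Type} [TEnc α] [TEnc β] (a : α) (b : β) :
    tsz (a, b) = tsz a + tsz b + 1 := by
  unfold tsz; rw [toT_pair, T.size_cons]

theorem tsz_nil {α : Type} [TEnc α] : tsz ([] : List α) = 1 := rfl

theorem tsz_cons {α : Type} [TEnc α] (a : α) (l : List α) : tsz (a :: l) = tsz a + tsz l + 1 := by
  unfold tsz; rw [toT_cons, T.size_cons]

theorem tsz_bool_le (b : Bool) : tsz b ≤ 3 := by cases b <;> decide

theorem tsz_pos {α : Type} [TEnc α] (a : α) : 1 ≤ tsz a := T.size_pos _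

theorem tsz_val {α : Type} [TEnc α] {p : α → Prop} (a : {a : α // p a}) : tsz a = tsz a.1 := rfl

theorem length_le_tsz {α : Type} [TEnc α] (l : List α) : l.length + 1 ≤ tsz l := by
  induction l with
  | nil => simp [tsz_nil]
  | cons a l ih => rw [tsz_cons, List.length_cons]; omega

theorem length_le_nodes {α : Type} [TEnc α] (l : List α) : l.length ≤ (toT l).nodes := by
  induction l with
  | nil => simp
  | cons a l ih => rw [toT_cons, T.nodes, List.length_cons]; omega

theorem tsz_append {α : Type} [TEnc α] (l l' : List α) : tsz (l ++ l') + 1 = tsz l + tsz l' := by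
  induction l with
  | nil => rw [tsz_nil, List.nil_append]; omega
  | cons a l ih => rw [List.cons_append, tsz_cons, tsz_cons]; omega

theorem tsz_reverse {α : Type} [TEnc α] (l : List α) : tsz l.reverse = tsz l := by
  induction l with
  | nil => rfl
  | cons a l ih =>
    rw [List.reverse_cons]
    have := tsz_append l.reverse [a]
    rw [tsz_cons, tsz_nil] at this
    rw [tsz_cons]
    omega

theorem tsz_mem_le {α : Type} [TEnc α] {l : List α} {a : α} (h : a ∈ l) : tsz a + 1 ≤ tsz l := by
  induction l with
  | nil => simp at h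
  | cons b l ih =>
    rw [tsz_cons]
    rcases List.mem_cons.mp h with rfl | h
    · omega
    · have := ih h; omega

theorem tsz_sublist {α : Type} [TEnc α] {l l' : List α} (h : l.Sublist l') : tsz l ≤ tsz l' := by
  induction h with
  | slnil => exact le_refl _
  | cons a _ ih => rw [tsz_cons]; omega
  | cons_cons a _ ih => rw [tsz_cons, tsz_cons]; omega

theorem tsz_take {α : Type} [TEnc α] (l : List α) (i : ℕ) : tsz (l.take i) ≤ tsz l :=
  tsz_sublist (List.take_sublist i l)

/-- A list of at most `n` elements of size at most `m` has size at most `n * (m + 1) + 1`. -/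
theorem tsz_list_le {α : Type} [TEnc α] {l : List α} {n m : ℕ} (hn : l.length ≤ n)
    (hm : ∀ a ∈ l, tsz a ≤ m) : tsz l ≤ n * (m + 1) + 1 := by
  have : tsz l ≤ l.length * (m + 1) + 1 := by
    clear hn
    induction l with
    | nil => simp [tsz_nil]
    | cons a l ih =>
      rw [tsz_cons, List.length_cons]
      have h1 := hm a (by simp)
      have h2 := ih (fun b hb => hm b (List.mem_cons_of_mem _ hb))
      nlinarith
  exact this.trans (by gcongr)

variable {α β γ δ σ : Type} [TEnc α] [TEnc β] [TEnc γ] [TEnc δ] [TEnc σ]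

/-! ### Basic closure properties -/

theorem PolyT.const (t : T) : PolyT (fun _ : α => t) := by
  induction t with
  | nil => exact PolyT.nil
  | cons a b iha ihb => exact iha.cons ihb

theorem Poly.const (b : β) : Poly (fun _ : α => b) := PolyT.const _

theorem Poly.pair {f : α → β} {g : α → γ} (hf : Poly f) (hg : Poly g) :
    Poly (fun a => (f a, g a)) := PolyT.cons hf hg

theorem PolyT.hd {F : α → T} (h : PolyT F) : PolyT (fun a => (F a).hd) :=
  PolyT.comp (F := fun t : T => t.hd) (g := F) PolyT.hd' h

theorem PolyT.tl {F : α → T} (h : PolyT F) : PolyT (fun a => (F a).tl) :=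
  PolyT.comp (F := fun t : T => t.tl) (g := F) PolyT.tl' h

theorem PolyT.congr {F G : α → T} (h : PolyT F) (e : ∀ a, F a = G a) : PolyT G := by
  have : F = G := funext e
  rwa [← this]

theorem Poly.congr {f g : α → β} (h : Poly f) (e : ∀ a, f a = g a) : Poly g := by
  have : f = g := funext e
  rwa [← this]

theorem Poly.fst {f : α → β × γ} (h : Poly f) : Poly (fun a => (f a).1) := PolyT.hd h

theorem Poly.snd {f : α → β × γ} (h : Poly f) : Poly (fun a => (f a).2) := PolyT.tl h

theorem Poly.cons {f : α → β} {g : α → List β} (hf : Poly f) (hg : Poly g) :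
    Poly (fun a => f a :: g a) := PolyT.cons hf hg

theorem Poly.succ {f : α → ℕ} (hf : Poly f) : Poly (fun a => f a + 1) :=
  PolyT.cons PolyT.nil hf

theorem Poly.val {p : α → Prop} : Poly (fun a : {a : α // p a} => a.1) :=
  (PolyT.self : PolyT (fun a : {a : α // p a} => toT a))

/-- Case distinction with dependent branches. -/
theorem PolyT.dite {F : α → T} (hF : PolyT F) {G : {a : α // F a = .nil} → T} (hG : PolyT G)
    {H : {a : α // F a ≠ .nil} → T} (hH : PolyT H) :
    PolyT (fun x => if h : F x = .nil then G ⟨x, h⟩ else H ⟨x, h⟩) := by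
  obtain ⟨bF, hbF, hbF'⟩ := hF.size_bound
  obtain ⟨cF, nF, pF, hcF, hpF, hrF⟩ := hF
  obtain ⟨cG, nG, pG, hcG, hpG, hrG⟩ := hG
  obtain ⟨cH, nH, pH, hcH, hpH, hrH⟩ := hH
  set n := max (max (max nF nG) nH) 1 with hn
  have hcF' : cF.Bdd n := hcF.mono (by omega)
  have hcG' : cG.Bdd n := hcG.mono (by omega)
  have hcH' : cH.Bdd n := hcH.mono (by omega)
  have hn1 : 1 ≤ n := by omega
  refine ⟨.seq (copy 0 n (n + 1)) (.seq cF (.test 0 .skip
    (.seq (clear 0) (.seq (move n (n + 1)) (.seq (move (n + 1) 0) cG)))
    (.seq (clear 0) (.seq (move n (n + 1)) (.seq (move (n + 1) 0) cH))))), n + 2,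
    fun k => (9 * k + 2) + (pF k + ((2 * bF k + 1) + ((4 * k + 1) + ((4 * k + 1) + (pG k + pH k)))
      + 1)), ?_, ?_, fun x => ?_⟩
  · exact ⟨copy_bdd (by omega) (by omega) (by omega), hcF'.mono (by omega), by omega, trivial,
      ⟨clear_bdd (by omega), move_bdd (by omega) (by omega), move_bdd (by omega) (by omega),
        hcG'.mono (by omega)⟩,
      ⟨clear_bdd (by omega), move_bdd (by omega) (by omega), move_bdd (by omega) (by omega),
        hcH'.mono (by omega)⟩⟩
  · have lin : ∀ (a b : ℕ) {f : ℕ → ℕ}, PB f → PB (fun k => a * f k + b) := fun a b _ hf =>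
      ((PB.const a).mul hf).add (PB.const b)
    exact (lin 9 2 PB.id).add (hpF.add (((lin 2 1 hbF).add ((lin 4 1 PB.id).add
      ((lin 4 1 PB.id).add (hpG.add hpH)))).add (PB.const 1)))
  · have r0 := run_copy (i := 0) (j := n) (k := n + 1) (by omega) (by omega) (by omega)
      (S4 n (tenc x) [] [] []) (S4_n1 _ _ _ _)
    rw [upd_n hn1, S4_0, S4_n hn1, List.append_nil] at r0
    have r1 := run_inside hcF' hn1 (hrF x) (S4 n (tenc x) (tenc x) [] []) (S4_0 _ _ _ _)
      (fun k h1 h2 => S4_low _ _ _ _ h1 h2)
    rw [upd_0] at r1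
    have r2 := run_clear 0 _ (S4 n (F x).enc (tenc x) [] []) (S4_0 _ _ _ _)
    rw [upd_0] at r2
    have r3 := run_move (i := n) (j := n + 1) (by omega) _ (S4 n [] (tenc x) [] [])
      (S4_n hn1 _ _ _ _)
    rw [upd_n hn1, upd_n1, S4_n1, List.append_nil] at r3
    have r4 := run_move (i := n + 1) (j := 0) (by omega) _
      (S4 n [] [] (tenc x).reverse []) (S4_n1 _ _ _ _)
    rw [upd_n1, upd_0, S4_0, List.append_nil, List.reverse_reverse] at r4
    have hF' : (F x).enc.length ≤ bF (tsz x) := hbF' x
    have hx : (tenc x).length = tsz x := rfl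
    by_cases hFx : F x = .nil
    · have hr := hrG ⟨x, hFx⟩
      have r5 := run_inside hcG' hn1 hr (S4 n (tenc x) [] [] []) (S4_0 _ _ _ _)
        (fun k h1 h2 => S4_low _ _ _ _ h1 h2)
      rw [upd_0] at r5
      have r6 := RunsIn.testFalse (k := 0) (a := .skip)
        (c := .seq (clear 0) (.seq (move n (n + 1)) (.seq (move (n + 1) 0) cH))) (l := [])
        (by rw [S4_0, hFx]; rfl)
        (r2.seq (r3.seq (r4.seq r5)))
      have h := r0.seq (r1.seq r6)
      rw [S4_st0, S4_st0] at h
      simp only [dif_pos hFx]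
      refine RunsIn.mono h ?_
      have hy : tsz (⟨x, hFx⟩ : {a : α // F a = .nil}) = tsz x := rfl
      simp only [List.length_reverse, hx, hy]
      omega
    · have hr := hrH ⟨x, hFx⟩
      obtain ⟨a, b, hab⟩ : ∃ a b, F x = .cons a b := by
        cases h : F x with
        | nil => exact absurd h hFx
        | cons a b => exact ⟨a, b, rfl⟩
      have r5 := run_inside hcH' hn1 hr (S4 n (tenc x) [] [] []) (S4_0 _ _ _ _)
        (fun k h1 h2 => S4_low _ _ _ _ h1 h2)
      rw [upd_0] at r5
      have r6 := RunsIn.testTrue (k := 0) (a := .skip)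
        (b := .seq (clear 0) (.seq (move n (n + 1)) (.seq (move (n + 1) 0) cG)))
        (l := a.enc ++ b.enc)
        (by rw [S4_0, hab]; rfl)
        (r2.seq (r3.seq (r4.seq r5)))
      have h := r0.seq (r1.seq r6)
      rw [S4_st0, S4_st0] at h
      simp only [dif_neg hFx]
      refine RunsIn.mono h ?_
      have hy : tsz (⟨x, hFx⟩ : {a : α // F a ≠ .nil}) = tsz x := rfl
      simp only [List.length_reverse, hx, hy]
      omega

/-- Boolean case distinction. -/
theorem Poly.cond {c : α → Bool} {f g : α → β} (hc : Poly c) (hf : Poly f) (hg : Poly g) :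
    Poly (fun a => bif c a then f a else g a) := by
  have h := PolyT.ite hc hg hf
  refine h.congr (fun a => ?_)
  beta_reduce
  cases c a <;> rfl

theorem Poly.ite {c : α → Prop} [DecidablePred c] {f g : α → β}
    (hc : Poly (fun a => decide (c a))) (hf : Poly f) (hg : Poly g) :
    Poly (fun a => if c a then f a else g a) := by
  refine (Poly.cond hc hf hg).congr (fun a => ?_)
  by_cases h : c a <;> simp [h]

/-- Case distinction on a list. -/
theorem Poly.listCases {l : α → List β} {f : α → γ} {g : α → β → List β → γ} (hl : Poly l)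
    (hf : Poly f) (hg : Poly (fun p : α × β × List β => g p.1 p.2.1 p.2.2)) :
    Poly (fun a => match l a with
      | [] => f a
      | b :: bs => g a b bs) := by
  have hne : ∀ a : {a : α // toT (l a) ≠ .nil}, l a.1 ≠ [] := fun a h => a.2 (by rw [h]; rfl)
  have h1 : Poly (fun a : {a : α // toT (l a) ≠ .nil} =>
      ((a.1, (l a.1).head (hne a), (l a.1).tail) : α × β × List β)) := by
    have hlv : Poly (fun a : {a : α // toT (l a) ≠ .nil} => l a.1) := hl.comp Poly.val
    refine Poly.pair Poly.val ?_
    refine (PolyT.cons (PolyT.hd hlv) (PolyT.tl hlv)).congr (fun a => ?_)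
    obtain ⟨a, ha⟩ := a
    have hne' := hne ⟨a, ha⟩
    simp only at hne' ⊢
    obtain ⟨b, bs, hb⟩ := List.exists_cons_of_ne_nil hne'
    simp only [hb]
    rfl
  have h2 : Poly (fun a : {a : α // toT (l a) ≠ .nil} =>
      g a.1 ((l a.1).head (hne a)) (l a.1).tail) := Poly.comp hg h1
  have h3 : Poly (fun a : {a : α // toT (l a) = .nil} => f a.1) := hf.comp Poly.val
  refine (PolyT.dite hl h3 h2).congr (fun a => ?_)
  beta_reduce
  by_cases h : toT (l a) = .nil
  · rw [dif_pos h]
    have : l a = [] := TEnc.inj (h.trans toT_nil.symm)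
    rw [this]
  · rw [dif_neg h]
    have hne' := hne ⟨a, h⟩
    simp only at hne'
    obtain ⟨b, bs, hb⟩ := List.exists_cons_of_ne_nil hne'
    simp only [hb]
    rfl

/-- Case distinction on a natural number. -/
theorem Poly.natCases {n : α → ℕ} {f : α → γ} {g : α → ℕ → γ} (hn : Poly n)
    (hf : Poly f) (hg : Poly (fun p : α × ℕ => g p.1 p.2)) :
    Poly (fun a => match n a with
      | 0 => f a
      | m + 1 => g a m) := by
  have h1 : Poly (fun a : {a : α // toT (n a) ≠ .nil} => ((a.1, n a.1 - 1) : α × ℕ)) := by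
    have hlv : Poly (fun a : {a : α // toT (n a) ≠ .nil} => n a.1) := hn.comp Poly.val
    refine Poly.pair Poly.val ?_
    refine (PolyT.tl hlv).congr (fun a => ?_)
    beta_reduce
    cases h : n a.1 with
    | zero => rfl
    | succ m => rfl
  have h2 : Poly (fun a : {a : α // toT (n a) ≠ .nil} => g a.1 (n a.1 - 1)) := Poly.comp hg h1
  have h3 : Poly (fun a : {a : α // toT (n a) = .nil} => f a.1) := hf.comp Poly.val
  refine (PolyT.dite hn h3 h2).congr (fun a => ?_)
  beta_reduce
  by_cases h : toT (n a) = .nil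
  · rw [dif_pos h]
    have : n a = 0 := TEnc.inj (h.trans toT_zero.symm)
    rw [this]
  · rw [dif_neg h]
    cases h' : n a with
    | zero => rw [h'] at h; exact absurd rfl h
    | succ m => rfl

/-- Iteration along a natural number. -/
theorem Poly.natIter {n : α → ℕ} {g : α → σ} {f : α → σ → σ} (hn : Poly n) (hg : Poly g)
    (hf : Poly (fun p : α × σ => f p.1 p.2)) {B : ℕ → ℕ} (hB : PB B)
    (hb : ∀ a, ∀ i ≤ n a, tsz ((f a)^[i] (g a)) ≤ B (tsz a)) :
    Poly (fun a => (f a)^[n a] (g a)) := by
  have key : ∀ (a : α) (i : ℕ), (fun p : α × σ => (p.1, f p.1 p.2))^[i] (a, g a)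
      = (a, (f a)^[i] (g a)) := by
    intro a i
    induction i with
    | zero => rfl
    | succ i ih => rw [Function.iterate_succ_apply', ih, Function.iterate_succ_apply']
  have h := Poly.iter (F := fun p : α × σ => (p.1, f p.1 p.2))
    ((Poly.fst Poly.id).pair hf) (cnt := fun a => toT (n a)) hn (g := fun a => (a, g a))
    (Poly.pair Poly.id hg) (B := fun k => k + B k + 1)
    ((PB.id.add hB).add (PB.const 1)) (by
      intro a i hi
      rw [nodes_nat] at hi
      rw [key, tsz_pair]
      have := hb a i hi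
      omega)
  refine (Poly.snd h).congr (fun a => ?_)
  rw [nodes_nat, key]

/-- Folding over a list. -/
theorem Poly.foldl {l : α → List β} {g : α → σ} {f : α → σ → β → σ} (hl : Poly l) (hg : Poly g)
    (hf : Poly (fun p : α × σ × β => f p.1 p.2.1 p.2.2)) {B : ℕ → ℕ} (hB : PB B)
    (hb : ∀ a, ∀ i, tsz (((l a).take i).foldl (f a) (g a)) ≤ B (tsz a)) :
    Poly (fun a => (l a).foldl (f a) (g a)) := by
  set F : α × σ × List β → α × σ × List β := fun p =>
    match p.2.2 with
    | [] => p
    | b :: bs => (p.1, f p.1 p.2.1 b, bs) with hF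
  have hFp : Poly F := by
    refine Poly.listCases (l := fun p : α × σ × List β => p.2.2) (f := fun p => p)
      (g := fun p b bs => (p.1, f p.1 p.2.1 b, bs)) (Poly.snd (Poly.snd Poly.id)) Poly.id ?_
    refine Poly.pair (Poly.fst (Poly.fst Poly.id)) (Poly.pair ?_ (Poly.snd (Poly.snd Poly.id)))
    exact Poly.comp hf (Poly.pair (Poly.fst (Poly.fst Poly.id))
      (Poly.pair (Poly.fst (Poly.snd (Poly.fst Poly.id))) (Poly.fst (Poly.snd Poly.id))))
  have key : ∀ (a : α) (i : ℕ) (s : σ) (l : List β), F^[i] (a, s, l)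
      = (a, (l.take i).foldl (f a) s, l.drop i) := by
    intro a i
    induction i with
    | zero => intro s l; simp
    | succ i ih =>
      intro s l
      rw [Function.iterate_succ_apply]
      cases l with
      | nil =>
        have : F (a, s, []) = (a, s, []) := rfl
        rw [this, ih]
        simp
      | cons b l =>
        have : F (a, s, b :: l) = (a, f a s b, l) := rfl
        rw [this, ih]
        simp
  obtain ⟨bl, hbl, -, hbl'⟩ := hl.size_bound
  have h := Poly.iter (F := F) hFp (cnt := fun a => toT (l a)) hl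
    (g := fun a => (a, g a, l a)) (Poly.pair Poly.id (Poly.pair hg hl))
    (B := fun k => k + B k + bl k + 2)
    (((PB.id.add hB).add hbl).add (PB.const 2)) (by
      intro a i _
      rw [key, tsz_pair, tsz_pair]
      have h1 := hb a i
      have h2 := hbl' a
      have h3 : tsz ((l a).drop i) ≤ tsz (l a) := tsz_sublist (List.drop_sublist i _)
      omega)
  refine (Poly.fst (Poly.snd h)).congr (fun a => ?_)
  rw [key, List.take_of_length_le (length_le_nodes _)]

end Pool.Agent.Helper86.PT
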