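import Mathlib

/-!
A structured language of stack programs over Boolean stacks indexed by `ℕ`, its big step
semantics with exact running time, and its compilation to `Turing.FinTM2`.
-/

set_option autoImplicit false

namespace Pool.Agent.Helper86.PT

open Turing

/-- Structured stack programs. -/
inductive Cmd : Type
  /-- do nothing -/
  | skip : Cmd
  /-- push a bit on a stack -/
  | push : ℕ → Bool → Cmd
  /-- drop the top element of a stack -/
  | pop : ℕ → Cmd
  /-- sequential composition -/
  | seq : Cmd → Cmd → Cmd
  /-- look at the top of a stack: empty, `false`, `true` -/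
  | test : ℕ → Cmd → Cmd → Cmd → Cmd
  /-- while the stack is nonempty, run the command -/
  | loop : ℕ → Cmd → Cmd

/-- Memory states. -/
abbrev St := ℕ → List Bool

/-- Big step semantics with the running time. -/
inductive Run : Cmd → St → St → ℕ → Prop
  | skip (s : St) : Run .skip s s 1
  | push (s : St) (k : ℕ) (b : Bool) : Run (.push k b) s (Function.update s k (b :: s k)) 1
  | pop (s : St) (k : ℕ) : Run (.pop k) s (Function.update s k (s k).tail) 1
  | seq {a b : Cmd} {s s' s'' : St} {t t' : ℕ} :
      Run a s s' t → Run b s' s'' t' → Run (.seq a b) s s'' (t + t')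
  | testNil {k : ℕ} {a b c : Cmd} {s s' : St} {t : ℕ} :
      s k = [] → Run a s s' t → Run (.test k a b c) s s' (t + 1)
  | testFalse {k : ℕ} {a b c : Cmd} {s s' : St} {t : ℕ} {l : List Bool} :
      s k = false :: l → Run b s s' t → Run (.test k a b c) s s' (t + 1)
  | testTrue {k : ℕ} {a b c : Cmd} {s s' : St} {t : ℕ} {l : List Bool} :
      s k = true :: l → Run c s s' t → Run (.test k a b c) s s' (t + 1)
  | loopNil {k : ℕ} {a : Cmd} {s : St} : s k = [] → Run (.loop k a) s s 1
  | loopCons {k : ℕ} {a : Cmd} {s s' s'' : St} {t t' : ℕ} :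
      s k ≠ [] → Run a s s' t → Run (.loop k a) s' s'' t' → Run (.loop k a) s s'' (t + t' + 1)

/-- All stack indices used are below `n`. -/
def Cmd.Bdd (n : ℕ) : Cmd → Prop
  | .skip => True
  | .push k _ => k < n
  | .pop k => k < n
  | .seq a b => a.Bdd n ∧ b.Bdd n
  | .test k a b c => k < n ∧ a.Bdd n ∧ b.Bdd n ∧ c.Bdd n
  | .loop k a => k < n ∧ a.Bdd n

theorem Cmd.Bdd.mono {n m : ℕ} (h : n ≤ m) : ∀ {c : Cmd}, c.Bdd n → c.Bdd m
  | .skip, _ => trivial
  | .push _ _, hc => lt_of_lt_of_le hc h
  | .pop _, hc => lt_of_lt_of_le hc h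
  | .seq _ _, hc => ⟨hc.1.mono h, hc.2.mono h⟩
  | .test _ _ _ _, hc => ⟨lt_of_lt_of_le hc.1 h, hc.2.1.mono h, hc.2.2.1.mono h, hc.2.2.2.mono h⟩
  | .loop _ _, hc => ⟨lt_of_lt_of_le hc.1 h, hc.2.mono h⟩

/-- `s` below `n` and `r` from `n` on. -/
def glue (n : ℕ) (s r : St) : St := fun k => if k < n then s k else r k

theorem glue_lt {n k : ℕ} (s r : St) (h : k < n) : glue n s r k = s k := by simp [glue, h]

theorem glue_ge {n k : ℕ} (s r : St) (h : n ≤ k) : glue n s r k = r k := by
  simp [glue, Nat.not_lt.mpr h]

theorem glue_update {n k : ℕ} (s r : St) (h : k < n) (l : List Bool) :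
    glue n (Function.update s k l) r = Function.update (glue n s r) k l := by
  funext j
  by_cases hj : j = k
  · subst hj; simp [glue, h]
  · by_cases hjn : j < n
    · simp [glue, hjn, Function.update_of_ne hj]
    · simp [glue, hjn, Function.update_of_ne hj]

/-- The frame property. -/
theorem Run.frame {c : Cmd} {s s' : St} {t : ℕ} (h : Run c s s' t) {n : ℕ} (hc : c.Bdd n) (r : St) :
    Run c (glue n s r) (glue n s' r) t := by
  induction h with
  | skip s => exact Run.skip _
  | push s k b =>
    have hk : k < n := hc
    rw [glue_update _ _ hk, ← glue_lt s r hk]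
    exact Run.push _ _ _
  | pop s k =>
    have hk : k < n := hc
    rw [glue_update _ _ hk, ← glue_lt s r hk]
    exact Run.pop _ _
  | seq _ _ ih1 ih2 => exact Run.seq (ih1 hc.1) (ih2 hc.2)
  | testNil hk _ ih => exact Run.testNil (by rw [glue_lt _ _ hc.1]; exact hk) (ih hc.2.1)
  | testFalse hk _ ih => exact Run.testFalse (by rw [glue_lt _ _ hc.1]; exact hk) (ih hc.2.2.1)
  | testTrue hk _ ih => exact Run.testTrue (by rw [glue_lt _ _ hc.1]; exact hk) (ih hc.2.2.2)
  | loopNil hk => exact Run.loopNil (by rw [glue_lt _ _ hc.1]; exact hk)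
  | loopCons hk _ _ ih1 ih2 =>
    exact Run.loopCons (by rw [glue_lt _ _ hc.1]; exact hk) (ih1 hc.2) (ih2 hc)

/-- Stacks not used are unchanged. -/
theorem Run.unchanged {c : Cmd} {s s' : St} {t : ℕ} (h : Run c s s' t) {n : ℕ} (hc : c.Bdd n)
    {k : ℕ} (hk : n ≤ k) : s' k = s k := by
  induction h with
  | skip s => rfl
  | push s j b =>
    have hj : j < n := hc
    rw [Function.update_of_ne (by omega)]
  | pop s j =>
    have hj : j < n := hc
    rw [Function.update_of_ne (by omega)]
  | seq _ _ ih1 ih2 => rw [ih2 hc.2, ih1 hc.1]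
  | testNil _ _ ih => exact ih hc.2.1
  | testFalse _ _ ih => exact ih hc.2.2.1
  | testTrue _ _ ih => exact ih hc.2.2.2
  | loopNil _ => rfl
  | loopCons _ _ _ ih1 ih2 => rw [ih2 hc, ih1 hc.2]

/-- Each stack grows by at most the running time. -/
theorem Run.length_le {c : Cmd} {s s' : St} {t : ℕ} (h : Run c s s' t) (k : ℕ) :
    (s' k).length ≤ (s k).length + t := by
  induction h with
  | skip s => omega
  | push s j b =>
    by_cases hj : k = j
    · subst hj; simp
    · rw [Function.update_of_ne hj]; omega
  | pop s j =>
    by_cases hj : k = j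
    · subst hj; simp; omega
    · rw [Function.update_of_ne hj]; omega
  | seq _ _ ih1 ih2 => omega
  | testNil _ _ ih => omega
  | testFalse _ _ ih => omega
  | testTrue _ _ ih => omega
  | loopNil _ => omega
  | loopCons _ _ _ ih1 ih2 => omega

/-! ### Compilation -/

/-- Labels of a program. -/
def Lab : Cmd → Type
  | .skip => Unit
  | .push _ _ => Unit
  | .pop _ => Unit
  | .seq a b => Lab a ⊕ Lab b
  | .test _ a b c => Option (Lab a ⊕ (Lab b ⊕ Lab c))
  | .loop _ a => Option (Lab a)

/-- The labels form a finite type. -/
@[reducible] def labFintype : (c : Cmd) → Fintype (Lab c)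
  | .skip => inferInstanceAs (Fintype Unit)
  | .push _ _ => inferInstanceAs (Fintype Unit)
  | .pop _ => inferInstanceAs (Fintype Unit)
  | .seq a b =>
    letI := labFintype a
    letI := labFintype b
    inferInstanceAs (Fintype (Lab a ⊕ Lab b))
  | .test _ a b c =>
    letI := labFintype a
    letI := labFintype b
    letI := labFintype c
    inferInstanceAs (Fintype (Option (Lab a ⊕ (Lab b ⊕ Lab c))))
  | .loop _ a =>
    letI := labFintype a
    inferInstanceAs (Fintype (Option (Lab a)))

/-- The entry label. -/
def entry : (c : Cmd) → Lab c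
  | .skip => ()
  | .push _ _ => ()
  | .pop _ => ()
  | .seq a _ => Sum.inl (entry a)
  | .test _ _ _ _ => none
  | .loop _ _ => none

/-- TM2 statements over `n + 1` Boolean stacks with internal state `Option Bool`. -/
abbrev PStmt (n : ℕ) (Λ : Type) := TM2.Stmt (fun _ : Fin (n + 1) => Bool) Λ (Option Bool)

/-- The code of a program, with labels embedded by `e` and exit label `x`. -/
def code (n : ℕ) {Λ : Type} : (c : Cmd) → (Lab c → Λ) → Λ → Lab c → PStmt n Λ
  | .skip, _, x, _ => .goto (fun _ => x)
  | .push k b, _, x, _ => .push (Fin.ofNat (n + 1) k) (fun _ => b) (.goto (fun _ => x))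
  | .pop k, _, x, _ => .pop (Fin.ofNat (n + 1) k) (fun v _ => v) (.goto (fun _ => x))
  | .seq a b, e, x, l =>
    match l with
    | .inl l => code n a (fun l => e (.inl l)) (e (.inr (entry b))) l
    | .inr l => code n b (fun l => e (.inr l)) x l
  | .test k a b c, e, x, l =>
    match l with
    | none => .peek (Fin.ofNat (n + 1) k) (fun _ o => o)
        (.branch (fun v => v == none) (.goto (fun _ => e (some (.inl (entry a)))))
          (.branch (fun v => v == some false) (.goto (fun _ => e (some (.inr (.inl (entry b))))))
            (.goto (fun _ => e (some (.inr (.inr (entry c))))))))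
    | some (.inl l) => code n a (fun l => e (some (.inl l))) x l
    | some (.inr (.inl l)) => code n b (fun l => e (some (.inr (.inl l)))) x l
    | some (.inr (.inr l)) => code n c (fun l => e (some (.inr (.inr l)))) x l
  | .loop k a, e, x, l =>
    match l with
    | none => .peek (Fin.ofNat (n + 1) k) (fun _ o => o)
        (.branch (fun v => v == none) (.goto (fun _ => x)) (.goto (fun _ => e (some (entry a)))))
    | some l => code n a (fun l => e (some l)) (e none) l

/-- Restriction of a memory state to the first `n + 1` stacks. -/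
def restr (n : ℕ) (s : St) : Fin (n + 1) → List Bool := fun i => s i.val

theorem restr_ofNat {n k : ℕ} (hk : k < n + 1) (s : St) :
    restr n s (Fin.ofNat (n + 1) k) = s k := by
  simp [restr, Nat.mod_eq_of_lt hk]

theorem restr_update {n k : ℕ} (hk : k < n + 1) (s : St) (l : List Bool) :
    restr n (Function.update s k l) = Function.update (restr n s) (Fin.ofNat (n + 1) k) l := by
  funext i
  by_cases hi : i = Fin.ofNat (n + 1) k
  · subst hi
    simp [restr, Nat.mod_eq_of_lt hk]
  · have : i.val ≠ k := by
      intro h
      apply hi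
      apply Fin.ext
      simp [h, Nat.mod_eq_of_lt hk]
    rw [Function.update_of_ne hi]
    show Function.update s k l i.val = s i.val
    rw [Function.update_of_ne this]

section sim

variable {n : ℕ} {Λ : Type}

/-- The one step function lifted to options. -/
abbrev stp (M : Λ → PStmt n Λ) :
    Option (TM2.Cfg (fun _ : Fin (n + 1) => Bool) Λ (Option Bool)) →
    Option (TM2.Cfg (fun _ : Fin (n + 1) => Bool) Λ (Option Bool)) :=
  flip bind (TM2.step M)

theorem simulation {c : Cmd} {s s' : St} {t : ℕ} (h : Run c s s' t) (hc : c.Bdd (n + 1))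
    (M : Λ → PStmt n Λ) (e : Lab c → Λ) (x : Λ) (hM : ∀ l, M (e l) = code n c e x l)
    (v : Option Bool) :
    ∃ v' : Option Bool, (stp M)^[t] (some ⟨some (e (entry c)), v, restr n s⟩)
      = some ⟨some x, v', restr n s'⟩ := by
  induction h generalizing x v with
  | skip s =>
    refine ⟨v, ?_⟩
    have := hM (entry .skip)
    simp only [Function.iterate_one, stp, flip, Option.bind_eq_bind, Option.bind_some, TM2.step]
    rw [this]
    simp [code]
  | push s k b =>
    refine ⟨v, ?_⟩
    have := hM (entry (.push k b))
    simp only [Function.iterate_one, stp, flip, Option.bind_eq_bind, Option.bind_some, TM2.step]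
    rw [this]
    have hk : k < n + 1 := hc
    simp only [code, TM2.stepAux]
    rw [restr_update hk, restr_ofNat hk]
  | pop s k =>
    refine ⟨v, ?_⟩
    have := hM (entry (.pop k))
    simp only [Function.iterate_one, stp, flip, Option.bind_eq_bind, Option.bind_some, TM2.step]
    rw [this]
    have hk : k < n + 1 := hc
    simp only [code, TM2.stepAux]
    rw [restr_update hk, restr_ofNat hk]
  | @seq a b s s' s'' t t' _ _ ih1 ih2 =>
    obtain ⟨v1, h1⟩ := ih1 hc.1 (fun l => e (.inl l)) (e (.inr (entry b)))
      (fun l => hM (.inl l)) v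
    obtain ⟨v2, h2⟩ := ih2 hc.2 (fun l => e (.inr l)) x (fun l => hM (.inr l)) v1
    refine ⟨v2, ?_⟩
    rw [add_comm t t', Function.iterate_add_apply]
    have : entry (.seq a b) = .inl (entry a) := rfl
    rw [this, h1, h2]
  | @testNil k a b c s s' t hk _ ih =>
    obtain ⟨v1, h1⟩ := ih hc.2.1 (fun l => e (some (.inl l))) x (fun l => hM (some (.inl l))) none
    refine ⟨v1, ?_⟩
    rw [Function.iterate_add_apply, Function.iterate_one]
    have h0 := hM (entry (.test k a b c))
    simp only [stp, flip, Option.bind_eq_bind, Option.bind_some, TM2.step]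
    rw [h0]
    have e1 : code n (.test k a b c) e x (entry (.test k a b c))
      = .peek (Fin.ofNat (n + 1) k) (fun _ o => o)
        (.branch (fun v => v == none) (.goto (fun _ => e (some (.inl (entry a)))))
          (.branch (fun v => v == some false) (.goto (fun _ => e (some (.inr (.inl (entry b))))))
            (.goto (fun _ => e (some (.inr (.inr (entry c)))))))) := rfl
    rw [e1]
    simp only [TM2.stepAux]
    rw [restr_ofNat hc.1, hk]
    exact h1
  | @testFalse k a b c s s' t l hk _ ih =>
    obtain ⟨v1, h1⟩ := ih hc.2.2.1 (fun l => e (some (.inr (.inl l)))) x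
      (fun l => hM (some (.inr (.inl l)))) (some false)
    refine ⟨v1, ?_⟩
    rw [Function.iterate_add_apply, Function.iterate_one]
    have h0 := hM (entry (.test k a b c))
    simp only [stp, flip, Option.bind_eq_bind, Option.bind_some, TM2.step]
    rw [h0]
    have e1 : code n (.test k a b c) e x (entry (.test k a b c))
      = .peek (Fin.ofNat (n + 1) k) (fun _ o => o)
        (.branch (fun v => v == none) (.goto (fun _ => e (some (.inl (entry a)))))
          (.branch (fun v => v == some false) (.goto (fun _ => e (some (.inr (.inl (entry b))))))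
            (.goto (fun _ => e (some (.inr (.inr (entry c)))))))) := rfl
    rw [e1]
    simp only [TM2.stepAux]
    rw [restr_ofNat hc.1, hk]
    exact h1
  | @testTrue k a b c s s' t l hk _ ih =>
    obtain ⟨v1, h1⟩ := ih hc.2.2.2 (fun l => e (some (.inr (.inr l)))) x
      (fun l => hM (some (.inr (.inr l)))) (some true)
    refine ⟨v1, ?_⟩
    rw [Function.iterate_add_apply, Function.iterate_one]
    have h0 := hM (entry (.test k a b c))
    simp only [stp, flip, Option.bind_eq_bind, Option.bind_some, TM2.step]
    rw [h0]
    have e1 : code n (.test k a b c) e x (entry (.test k a b c))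
      = .peek (Fin.ofNat (n + 1) k) (fun _ o => o)
        (.branch (fun v => v == none) (.goto (fun _ => e (some (.inl (entry a)))))
          (.branch (fun v => v == some false) (.goto (fun _ => e (some (.inr (.inl (entry b))))))
            (.goto (fun _ => e (some (.inr (.inr (entry c)))))))) := rfl
    rw [e1]
    simp only [TM2.stepAux]
    rw [restr_ofNat hc.1, hk]
    exact h1
  | @loopNil k a s hk =>
    refine ⟨none, ?_⟩
    have h0 := hM (entry (.loop k a))
    simp only [Function.iterate_one, stp, flip, Option.bind_eq_bind, Option.bind_some, TM2.step]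
    rw [h0]
    have e1 : code n (.loop k a) e x (entry (.loop k a))
      = .peek (Fin.ofNat (n + 1) k) (fun _ o => o)
        (.branch (fun v => v == none) (.goto (fun _ => x))
          (.goto (fun _ => e (some (entry a))))) := rfl
    rw [e1]
    simp only [TM2.stepAux]
    rw [restr_ofNat hc.1, hk]
    rfl
  | @loopCons k a s s' s'' t t' hk _ _ ih1 ih2 =>
    obtain ⟨b, l, hbl⟩ : ∃ b l, s k = b :: l := List.exists_cons_of_ne_nil hk
    obtain ⟨v1, h1⟩ := ih1 hc.2 (fun l => e (some l)) (e none) (fun l => hM (some l)) (some b)
    obtain ⟨v2, h2⟩ := ih2 hc e x hM v1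
    refine ⟨v2, ?_⟩
    rw [show t + t' + 1 = t' + (t + 1) by ring, Function.iterate_add_apply,
      Function.iterate_add_apply, Function.iterate_one]
    have h0 := hM (entry (.loop k a))
    have e1 : code n (.loop k a) e x (entry (.loop k a))
      = .peek (Fin.ofNat (n + 1) k) (fun _ o => o)
        (.branch (fun v => v == none) (.goto (fun _ => x))
          (.goto (fun _ => e (some (entry a))))) := rfl
    have e2 : stp M (some ⟨some (e (entry (.loop k a))), v, restr n s⟩)
        = some ⟨some (e (some (entry a))), some b, restr n s⟩ := by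
      simp only [stp, flip, Option.bind_eq_bind, Option.bind_some, TM2.step]
      rw [h0, e1]
      simp only [TM2.stepAux]
      rw [restr_ofNat hc.1, hbl]
      rfl
    rw [e2, h1]
    exact h2

end sim

end Pool.Agent.Helper86.PT
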