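import Pool.Agent.Helper86.Poly.Lib

/-!
More polynomial time functions: lists, natural numbers, Booleans.
-/

set_option autoImplicit false

namespace Pool.Agent.Helper86.PT

variable {α β γ δ σ : Type} [TEnc α] [TEnc β] [TEnc γ] [TEnc δ] [TEnc σ]

/-! ### Lists -/

theorem foldl_cons_eq {τ : Type} (l acc : List τ) :
    l.foldl (fun s b => b :: s) acc = l.reverse ++ acc := by
  induction l generalizing acc with
  | nil => rfl
  | cons a l ih => simp [ih]

theorem Poly.reverse {l : α → List β} (hl : Poly l) : Poly (fun a => (l a).reverse) := by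
  obtain ⟨bl, hbl, -, hbl'⟩ := hl.size_bound
  have h := Poly.foldl (l := l) (g := fun _ => ([] : List β)) (f := fun _ s b => b :: s) hl
    (Poly.const []) (Poly.cons (Poly.snd (Poly.snd Poly.id)) (Poly.fst (Poly.snd Poly.id)))
    hbl (by
      intro a i
      rw [foldl_cons_eq, List.append_nil, tsz_reverse]
      exact (tsz_take _ _).trans (hbl' a))
  refine h.congr (fun a => ?_)
  rw [foldl_cons_eq, List.append_nil]

theorem Poly.append {l l' : α → List β} (hl : Poly l) (hl' : Poly l') :
    Poly (fun a => l a ++ l' a) := by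
  obtain ⟨b1, hb1, -, hb1'⟩ := hl.size_bound
  obtain ⟨b2, hb2, -, hb2'⟩ := hl'.size_bound
  have h := Poly.foldl (l := fun a => (l a).reverse) (g := l') (f := fun _ s b => b :: s)
    hl.reverse hl' (Poly.cons (Poly.snd (Poly.snd Poly.id)) (Poly.fst (Poly.snd Poly.id)))
    (hb1.add hb2) (by
      intro a i
      rw [foldl_cons_eq]
      have h1 := tsz_append (((l a).reverse.take i).reverse) (l' a)
      rw [tsz_reverse] at h1
      have h2 := tsz_take (l a).reverse i
      rw [tsz_reverse] at h2
      have h3 := hb1' a
      have h4 := hb2' a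
      omega)
  refine h.congr (fun a => ?_)
  rw [foldl_cons_eq, List.reverse_reverse]

/-- Mapping a function with parameters over a list. -/
theorem Poly.map {l : α → List β} {f : α → β → γ} (hl : Poly l)
    (hf : Poly (fun p : α × β => f p.1 p.2)) : Poly (fun a => (l a).map (f a)) := by
  obtain ⟨b1, hb1, hm1, hb1'⟩ := hl.size_bound
  obtain ⟨b2, hb2, hm2, hb2'⟩ := hf.size_bound
  have key : ∀ (a : α) (l : List β) (acc : List γ),
      l.foldl (fun s b => f a b :: s) acc = (l.map (f a)).reverse ++ acc := by
    intro a l
    induction l with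
    | nil => intro acc; rfl
    | cons b l ih => intro acc; simp [ih]
  have hsz : ∀ a, ∀ b ∈ l a, tsz (f a b) ≤ b2 (tsz a + b1 (tsz a) + 1) := by
    intro a b hb
    refine (hb2' (a, b)).trans (hm2 ?_)
    rw [tsz_pair]
    have := tsz_mem_le hb
    have := hb1' a
    omega
  have h := Poly.foldl (l := l) (g := fun _ => ([] : List γ)) (f := fun a s b => f a b :: s) hl
    (Poly.const []) (Poly.cons
      (Poly.comp (f := fun p : α × β => f p.1 p.2) hf
        (Poly.pair (Poly.fst Poly.id) (Poly.snd (Poly.snd Poly.id))))
      (Poly.fst (Poly.snd Poly.id)))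
    (B := fun k => b1 k * (b2 (k + b1 k + 1) + 1) + 1)
    ((hb1.mul ((hb2.comp ((PB.id.add hb1).add (PB.const 1))).add (PB.const 1))).add (PB.const 1))
    (by
      intro a i
      rw [key, List.append_nil, tsz_reverse]
      refine tsz_list_le ?_ ?_
      · rw [List.length_map]
        have h1 := length_le_tsz ((l a).take i)
        have h2 := tsz_take (l a) i
        have h3 := hb1' a
        omega
      · intro c hc
        obtain ⟨b, hb, rfl⟩ := List.mem_map.mp hc
        exact hsz a b (List.mem_of_mem_take hb))
  refine (Poly.reverse h).congr (fun a => ?_)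
  rw [key, List.append_nil, List.reverse_reverse]

theorem tsz_flatten (l : List (List β)) : tsz l.flatten ≤ tsz l := by
  induction l with
  | nil => exact le_refl _
  | cons a l ih =>
    rw [List.flatten_cons, tsz_cons]
    have := tsz_append a l.flatten
    omega

theorem Poly.flatten {l : α → List (List β)} (hl : Poly l) : Poly (fun a => (l a).flatten) := by
  obtain ⟨b1, hb1, hm1, hb1'⟩ := hl.size_bound
  have key : ∀ (l : List (List β)) (acc : List β),
      l.foldl (fun s b => s ++ b) acc = acc ++ l.flatten := by
    intro l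
    induction l with
    | nil => intro acc; simp
    | cons b l ih => intro acc; simp [ih]
  have h := Poly.foldl (l := l) (g := fun _ => ([] : List β)) (f := fun _ s b => s ++ b) hl
    (Poly.const []) (Poly.append (Poly.fst (Poly.snd Poly.id)) (Poly.snd (Poly.snd Poly.id)))
    hb1 (by
      intro a i
      rw [key, List.nil_append]
      exact ((tsz_flatten _).trans (tsz_take _ _)).trans (hb1' a))
  refine h.congr (fun a => ?_)
  rw [key, List.nil_append]

theorem Poly.flatMap {l : α → List β} {f : α → β → List γ} (hl : Poly l)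
    (hf : Poly (fun p : α × β => f p.1 p.2)) : Poly (fun a => (l a).flatMap (f a)) := by
  refine (Poly.flatten (Poly.map hl hf)).congr (fun a => ?_)
  rw [List.flatMap_def]

theorem Poly.length {l : α → List β} (hl : Poly l) : Poly (fun a => (l a).length) := by
  obtain ⟨b1, hb1, hm1, hb1'⟩ := hl.size_bound
  have key : ∀ (l : List β) (n : ℕ), l.foldl (fun s _ => s + 1) n = n + l.length := by
    intro l
    induction l with
    | nil => intro n; rfl
    | cons b l ih => intro n; simp [ih]; omega
  have h := Poly.foldl (l := l) (g := fun _ => 0) (f := fun _ s _ => s + 1) hl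
    (Poly.const 0) (Poly.succ (Poly.fst (Poly.snd Poly.id)))
    (B := fun k => 2 * b1 k + 1) (((PB.const 2).mul hb1).add (PB.const 1)) (by
      intro a i
      rw [key, tsz_nat]
      have h1 := length_le_tsz ((l a).take i)
      have h2 := tsz_take (l a) i
      have h3 := hb1' a
      omega)
  refine h.congr (fun a => ?_)
  rw [key, Nat.zero_add]

/-- Folding to a Boolean. -/
theorem Poly.foldlBool {l : α → List β} {g : α → Bool} {f : α → Bool → β → Bool} (hl : Poly l)
    (hg : Poly g) (hf : Poly (fun p : α × Bool × β => f p.1 p.2.1 p.2.2)) :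
    Poly (fun a => (l a).foldl (f a) (g a)) :=
  Poly.foldl hl hg hf (PB.const 3) (fun _ _ => tsz_bool_le _)

/-! ### Booleans -/

theorem Poly.not {f : α → Bool} (hf : Poly f) : Poly (fun a => !(f a)) := by
  refine (Poly.cond hf (Poly.const false) (Poly.const true)).congr (fun a => ?_)
  cases f a <;> rfl

theorem Poly.and {f g : α → Bool} (hf : Poly f) (hg : Poly g) : Poly (fun a => f a && g a) := by
  refine (Poly.cond hf hg (Poly.const false)).congr (fun a => ?_)
  cases f a <;> rfl

theorem Poly.or {f g : α → Bool} (hf : Poly f) (hg : Poly g) : Poly (fun a => f a || g a) := by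
  refine (Poly.cond hf (Poly.const true) hg).congr (fun a => ?_)
  cases f a <;> rfl

theorem Poly.beqBool {f g : α → Bool} (hf : Poly f) (hg : Poly g) :
    Poly (fun a => decide (f a = g a)) := by
  refine (Poly.cond hf hg hg.not).congr (fun a => ?_)
  cases f a <;> cases g a <;> rfl

theorem Poly.any {l : α → List β} {f : α → β → Bool} (hl : Poly l)
    (hf : Poly (fun p : α × β => f p.1 p.2)) : Poly (fun a => (l a).any (f a)) := by
  have key : ∀ (a : α) (l : List β) (s : Bool),
      l.foldl (fun s b => s || f a b) s = (s || l.any (f a)) := by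
    intro a l
    induction l with
    | nil => intro s; simp
    | cons b l ih => intro s; simp [ih, Bool.or_assoc]
  have h := Poly.foldlBool (l := l) (g := fun _ => false) (f := fun a s b => s || f a b) hl
    (Poly.const false) (Poly.or (Poly.fst (Poly.snd Poly.id))
      (Poly.comp (f := fun p : α × β => f p.1 p.2) hf
        (Poly.pair (Poly.fst Poly.id) (Poly.snd (Poly.snd Poly.id)))))
  refine h.congr (fun a => ?_)
  rw [key, Bool.false_or]

theorem Poly.all {l : α → List β} {f : α → β → Bool} (hl : Poly l)
    (hf : Poly (fun p : α × β => f p.1 p.2)) : Poly (fun a => (l a).all (f a)) := by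
  have h := (Poly.any (f := fun a b => !(f a b)) hl hf.not).not
  refine h.congr (fun a => ?_)
  rw [List.any_eq_not_all_not]
  simp

theorem Poly.filter {l : α → List β} {f : α → β → Bool} (hl : Poly l)
    (hf : Poly (fun p : α × β => f p.1 p.2)) : Poly (fun a => (l a).filter (f a)) := by
  have h := Poly.flatMap (f := fun a b => bif f a b then [b] else []) hl
    (Poly.cond hf (Poly.cons (Poly.snd Poly.id) (Poly.const [])) (Poly.const []))
  refine h.congr (fun a => ?_)
  induction l a with
  | nil => rfl
  | cons b l ih =>
    rw [List.flatMap_cons, ih, List.filter_cons]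
    cases f a b <;> rfl

/-! ### Natural numbers -/

theorem Poly.add {f g : α → ℕ} (hf : Poly f) (hg : Poly g) : Poly (fun a => f a + g a) := by
  obtain ⟨b1, hb1, -, hb1'⟩ := hf.size_bound
  obtain ⟨b2, hb2, -, hb2'⟩ := hg.size_bound
  have key : ∀ n i : ℕ, (fun s => s + 1)^[i] n = n + i := by
    intro n i
    induction i generalizing n with
    | zero => rfl
    | succ i ih => rw [Function.iterate_succ_apply, ih]; omega
  have h := Poly.natIter (n := g) (g := f) (f := fun _ s => s + 1) hg hf
    (Poly.succ (Poly.snd Poly.id)) (hb1.add hb2) (by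
      intro a i hi
      rw [key, tsz_nat]
      have h1 := hb1' a
      have h2 := hb2' a
      rw [tsz_nat] at h1 h2
      omega)
  exact h.congr (fun a => key _ _)

theorem Poly.mul {f g : α → ℕ} (hf : Poly f) (hg : Poly g) : Poly (fun a => f a * g a) := by
  obtain ⟨b1, hb1, -, hb1'⟩ := hf.size_bound
  obtain ⟨b2, hb2, -, hb2'⟩ := hg.size_bound
  have key : ∀ m i : ℕ, (fun s => s + m)^[i] 0 = i * m := by
    intro m i
    induction i with
    | zero => simp
    | succ i ih => rw [Function.iterate_succ_apply', ih]; ring
  have h := Poly.natIter (n := f) (g := fun _ => 0) (f := fun a s => s + g a) hf (Poly.const 0)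
    (Poly.add (Poly.snd Poly.id) (hg.comp (Poly.fst Poly.id))) (hb1.mul hb2) (by
      intro a i hi
      rw [key, tsz_nat]
      have h1 := hb1' a
      have h2 := hb2' a
      rw [tsz_nat] at h1 h2
      calc 2 * (i * g a) + 1 ≤ (2 * f a + 1) * (2 * g a + 1) := by nlinarith
        _ ≤ _ := Nat.mul_le_mul h1 h2)
  exact h.congr (fun a => key _ _)

theorem Poly.pred {f : α → ℕ} (hf : Poly f) : Poly (fun a => f a - 1) := by
  have h := Poly.natCases (n := f) (f := fun _ => 0) (g := fun _ m => m) hf (Poly.const 0)
    (Poly.snd Poly.id)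
  refine h.congr (fun a => ?_)
  cases f a <;> rfl

theorem Poly.sub {f g : α → ℕ} (hf : Poly f) (hg : Poly g) : Poly (fun a => f a - g a) := by
  obtain ⟨b1, hb1, -, hb1'⟩ := hf.size_bound
  have key : ∀ n i : ℕ, (fun s => s - 1)^[i] n = n - i := by
    intro n i
    induction i generalizing n with
    | zero => rfl
    | succ i ih => rw [Function.iterate_succ_apply, ih]; omega
  have h := Poly.natIter (n := g) (g := f) (f := fun _ s => s - 1) hg hf
    (Poly.pred (Poly.snd Poly.id)) hb1 (by
      intro a i hi
      rw [key]
      have h1 := hb1' a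
      rw [tsz_nat] at h1 ⊢
      omega)
  exact h.congr (fun a => key _ _)

theorem Poly.isZero {f : α → ℕ} (hf : Poly f) : Poly (fun a => decide (f a = 0)) := by
  have h := Poly.natCases (n := f) (f := fun _ => true) (g := fun _ _ => false) hf
    (Poly.const true) (Poly.const false)
  refine h.congr (fun a => ?_)
  cases f a <;> rfl

theorem Poly.le {f g : α → ℕ} (hf : Poly f) (hg : Poly g) :
    Poly (fun a => decide (f a ≤ g a)) := by
  refine (Poly.isZero (Poly.sub hf hg)).congr (fun a => ?_)
  simp only [decide_eq_decide]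
  omega

theorem Poly.lt {f g : α → ℕ} (hf : Poly f) (hg : Poly g) :
    Poly (fun a => decide (f a < g a)) :=
  Poly.le (Poly.succ hf) hg

theorem Poly.eqNat {f g : α → ℕ} (hf : Poly f) (hg : Poly g) :
    Poly (fun a => decide (f a = g a)) := by
  refine (Poly.and (Poly.le hf hg) (Poly.le hg hf)).congr (fun a => ?_)
  rw [← Bool.decide_and]
  simp only [decide_eq_decide]
  omega

theorem Poly.pow {f : α → ℕ} (hf : Poly f) (c : ℕ) : Poly (fun a => f a ^ c) := by
  induction c with
  | zero => exact (Poly.const 1).congr (fun a => by simp)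
  | succ c ih => exact (Poly.mul ih hf).congr (fun a => by rw [pow_succ])

theorem Poly.polyEval {f : α → ℕ} (hf : Poly f) (p : Polynomial ℕ) :
    Poly (fun a => p.eval (f a)) := by
  induction p using Polynomial.induction_on' with
  | add p q hp hq => exact (Poly.add hp hq).congr (fun a => by rw [Polynomial.eval_add])
  | monomial n c =>
    exact (Poly.mul (Poly.const c) (Poly.pow hf n)).congr
      (fun a => by rw [Polynomial.eval_monomial])

theorem Poly.range {f : α → ℕ} (hf : Poly f) : Poly (fun a => List.range (f a)) := by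
  obtain ⟨b1, hb1, -, hb1'⟩ := hf.size_bound
  have key : ∀ i : ℕ, (fun s : List ℕ => s.length :: s)^[i] [] = (List.range i).reverse := by
    intro i
    induction i with
    | zero => rfl
    | succ i ih => rw [Function.iterate_succ_apply', ih, List.range_succ]; simp
  have h := Poly.natIter (n := f) (g := fun _ => ([] : List ℕ)) (f := fun _ s => s.length :: s) hf
    (Poly.const []) (Poly.cons (Poly.length (Poly.snd Poly.id)) (Poly.snd Poly.id))
    (B := fun k => b1 k * (b1 k + 1) + 1) ((hb1.mul (hb1.add (PB.const 1))).add (PB.const 1)) (by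
      intro a i hi
      rw [key, tsz_reverse]
      have h1 := hb1' a
      rw [tsz_nat] at h1
      refine tsz_list_le ?_ ?_
      · rw [List.length_range]; omega
      · intro c hc
        rw [List.mem_range] at hc
        rw [tsz_nat]; omega)
  refine (Poly.reverse h).congr (fun a => ?_)
  rw [key, List.reverse_reverse]

theorem Poly.drop {l : α → List β} {n : α → ℕ} (hl : Poly l) (hn : Poly n) :
    Poly (fun a => (l a).drop (n a)) := by
  obtain ⟨b1, hb1, -, hb1'⟩ := hl.size_bound
  have key : ∀ (l : List β) (i : ℕ), (fun s : List β => s.tail)^[i] l = l.drop i := by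
    intro l i
    induction i generalizing l with
    | zero => rfl
    | succ i ih => rw [Function.iterate_succ_apply, ih]; cases l <;> simp
  have htl : Poly (fun p : α × List β => p.2.tail) := by
    have h := Poly.listCases (l := fun p : α × List β => p.2) (f := fun _ => ([] : List β))
      (g := fun _ _ bs => bs) (Poly.snd Poly.id) (Poly.const []) (Poly.snd (Poly.snd Poly.id))
    refine h.congr (fun a => ?_)
    cases a.2 <;> rfl
  have h := Poly.natIter (n := n) (g := l) (f := fun _ s => s.tail) hn hl htl hb1 (by
    intro a i hi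
    rw [key]
    exact (tsz_sublist (List.drop_sublist _ _)).trans (hb1' a))
  exact h.congr (fun a => key _ _)

theorem Poly.headD {l : α → List β} {d : α → β} (hl : Poly l) (hd : Poly d) :
    Poly (fun a => (l a).headD (d a)) := by
  have h := Poly.listCases (l := l) (f := d) (g := fun _ b _ => b) hl hd
    (Poly.fst (Poly.snd Poly.id))
  refine h.congr (fun a => ?_)
  cases l a <;> rfl

theorem Poly.getD {l : α → List β} {n : α → ℕ} {d : α → β} (hl : Poly l) (hn : Poly n)
    (hd : Poly d) : Poly (fun a => (l a).getD (n a) (d a)) := by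
  refine (Poly.headD (Poly.drop hl hn) hd).congr (fun a => ?_)
  rw [List.getD_eq_getElem?_getD, List.headD_eq_head?_getD, List.head?_drop]

theorem Poly.replicate {n : α → ℕ} {b : α → β} (hn : Poly n) (hb : Poly b) :
    Poly (fun a => List.replicate (n a) (b a)) := by
  have h := Poly.map (l := fun a => List.range (n a)) (f := fun a _ => b a) (Poly.range hn)
    (hb.comp (Poly.fst Poly.id))
  refine h.congr (fun a => ?_)
  simp

/-! ### Sum types -/

instance : TEnc (α ⊕ β) where
  toT
    | .inl a => .cons .nil (toT a)
    | .inr b => .cons (.cons .nil .nil) (toT b)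
  inj := by
    rintro (a | a) (b | b) h
    · simp only [T.cons.injEq, true_and] at h; rw [TEnc.inj h]
    · simp at h
    · simp at h
    · simp only [T.cons.injEq, true_and] at h; rw [TEnc.inj h]

theorem Poly.inl {f : α → β} (hf : Poly f) : Poly (fun a => (Sum.inl (f a) : β ⊕ γ)) :=
  PolyT.cons PolyT.nil hf

theorem Poly.inr {f : α → γ} (hf : Poly f) : Poly (fun a => (Sum.inr (f a) : β ⊕ γ)) :=
  PolyT.cons (PolyT.cons PolyT.nil PolyT.nil) hf

/-- Case distinction on a sum type. -/
theorem Poly.sumCases {s : α → β ⊕ γ} {f : α → β → δ} {g : α → γ → δ} (hs : Poly s)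
    (hf : Poly (fun p : α × β => f p.1 p.2)) (hg : Poly (fun p : α × γ => g p.1 p.2)) :
    Poly (fun a => Sum.elim (f a) (g a) (s a)) := by
  have hF : PolyT (fun a : α => (toT (s a)).hd) := PolyT.hd hs
  have hl : ∀ a : {a : α // (toT (s a)).hd = .nil}, ∃ b, s a.1 = .inl b := by
    rintro ⟨a, ha⟩
    cases h : s a with
    | inl b => exact ⟨b, rfl⟩
    | inr b => rw [h] at ha; exact absurd ha (by simp [toT, T.hd])
  have hr : ∀ a : {a : α // (toT (s a)).hd ≠ .nil}, ∃ b, s a.1 = .inr b := by
    rintro ⟨a, ha⟩
    cases h : s a with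
    | inl b => rw [h] at ha; exact absurd rfl ha
    | inr b => exact ⟨b, rfl⟩
  choose bl hbl using hl
  choose br hbr using hr
  have h1 : Poly (fun a : {a : α // (toT (s a)).hd = .nil} => ((a.1, bl a) : α × β)) := by
    refine Poly.pair Poly.val ?_
    refine (PolyT.tl (F := fun a : {a : α // (toT (s a)).hd = .nil} => toT (s a.1))
      (hs.comp Poly.val)).congr (fun a => ?_)
    beta_reduce
    rw [hbl a]
    rfl
  have h2 : Poly (fun a : {a : α // (toT (s a)).hd ≠ .nil} => ((a.1, br a) : α × γ)) := by
    refine Poly.pair Poly.val ?_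
    refine (PolyT.tl (F := fun a : {a : α // (toT (s a)).hd ≠ .nil} => toT (s a.1))
      (hs.comp Poly.val)).congr (fun a => ?_)
    beta_reduce
    rw [hbr a]
    rfl
  refine (PolyT.dite hF (hf.comp h1) (hg.comp h2)).congr (fun a => ?_)
  beta_reduce
  by_cases h : (toT (s a)).hd = .nil
  · rw [dif_pos h, hbl ⟨a, h⟩]
    rfl
  · rw [dif_neg h, hbr ⟨a, h⟩]
    rfl

end Pool.Agent.Helper86.PT
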