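import Pool.Agent.Helper86.Poly.Tree

/-!
From stack programs to Mathlib's `Turing.TM2ComputableInPolyTime`.
-/

set_option autoImplicit false

namespace Pool.Agent.Helper86.PT

open Turing Function

/-! ### Representations of the basic types -/

/-- The tree of a Boolean. -/
def boolT : Bool → T
  | false => .nil
  | true => .cons .nil .nil

instance : TEnc Bool where
  toT := boolT
  inj := by
    intro a b h
    cases a <;> cases b <;> simp_all [boolT]

/-- The tree of a list. -/
def listT {α : Type} [TEnc α] : List α → T
  | [] => .nil
  | a :: l => .cons (toT a) (listT l)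

instance {α : Type} [TEnc α] : TEnc (List α) where
  toT := listT
  inj := by
    intro l
    induction l with
    | nil =>
      intro l' h
      cases l' with
      | nil => rfl
      | cons a l' => simp [listT] at h
    | cons a l ih =>
      intro l' h
      cases l' with
      | nil => simp [listT] at h
      | cons a' l' =>
        simp only [listT, T.cons.injEq] at h
        rw [TEnc.inj h.1, ih h.2]

@[simp] theorem toT_nil {α : Type} [TEnc α] : toT ([] : List α) = T.nil := rfl

@[simp] theorem toT_cons {α : Type} [TEnc α] (a : α) (l : List α) :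
    toT (a :: l) = T.cons (toT a) (toT l) := rfl

/-! ### Reading the input and writing the output -/

/-- Convert the raw input string to the encoding of the corresponding list. -/
def inLoop : Cmd :=
  .loop 1 (.test 1 .skip (.seq (.pop 1) (.seq (.push 0 false) (.push 0 true)))
    (.seq (.pop 1) (.seq (.push 0 false) (.seq (.push 0 false)
      (.seq (.push 0 true) (.push 0 true))))))

/-- Convert the raw input string to the encoding of the corresponding list. -/
def inC : Cmd := .seq (move 0 1) (.seq (.push 0 false) inLoop)

theorem tenc_nil : tenc ([] : List Bool) = [false] := rfl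

theorem tenc_false (l : List Bool) : tenc (false :: l) = true :: false :: tenc l := rfl

theorem tenc_true (l : List Bool) : tenc (true :: l) = true :: true :: false :: false :: tenc l :=
  rfl

theorem run_inLoop : ∀ (w l : List Bool),
    RunsIn inLoop (S4 1 (tenc l) w [] []) (S4 1 (tenc (w.reverse ++ l)) [] [] [])
      (7 * w.length + 1) := by
  intro w
  induction w with
  | nil => intro l; exact RunsIn.loopNil (S4_n (le_refl _) _ _ _ _)
  | cons b w ih =>
    intro l
    have h0 := RunsIn.pop (S4 1 (tenc l) (b :: w) [] []) 1
    rw [upd_n (le_refl _), S4_n (le_refl _)] at h0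
    cases b with
    | false =>
      have h1 := RunsIn.push (S4 1 (tenc l) w [] []) 0 false
      rw [upd_0, S4_0] at h1
      have h2 := RunsIn.push (S4 1 (false :: tenc l) w [] []) 0 true
      rw [upd_0, S4_0] at h2
      have hb := RunsIn.testFalse (k := 1) (a := .skip)
        (c := .seq (.pop 1) (.seq (.push 0 false) (.seq (.push 0 false)
          (.seq (.push 0 true) (.push 0 true)))))
        (S4_n (le_refl _) _ _ _ _) (h0.seq (h1.seq h2))
      rw [← tenc_false] at hb
      have h3 := RunsIn.loopCons (k := 1) (by rw [S4_n (le_refl _)]; simp) hb (ih (false :: l))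
      have e : (false :: w).reverse ++ l = w.reverse ++ false :: l := by simp
      rw [e]
      exact h3.mono (by simp only [List.length_cons]; omega)
    | true =>
      have h1 := RunsIn.push (S4 1 (tenc l) w [] []) 0 false
      rw [upd_0, S4_0] at h1
      have h2 := RunsIn.push (S4 1 (false :: tenc l) w [] []) 0 false
      rw [upd_0, S4_0] at h2
      have h3 := RunsIn.push (S4 1 (false :: false :: tenc l) w [] []) 0 true
      rw [upd_0, S4_0] at h3
      have h4 := RunsIn.push (S4 1 (true :: false :: false :: tenc l) w [] []) 0 true
      rw [upd_0, S4_0] at h4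
      have hb := RunsIn.testTrue (k := 1) (a := .skip)
        (b := .seq (.pop 1) (.seq (.push 0 false) (.push 0 true)))
        (S4_n (le_refl _) _ _ _ _) (h0.seq (h1.seq (h2.seq (h3.seq h4))))
      rw [← tenc_true] at hb
      have h5 := RunsIn.loopCons (k := 1) (by rw [S4_n (le_refl _)]; simp) hb (ih (true :: l))
      have e : (true :: w).reverse ++ l = w.reverse ++ true :: l := by simp
      rw [e]
      exact h5.mono (by simp only [List.length_cons]; omega)

theorem run_inC (l : List Bool) :
    RunsIn inC (st0 l) (st0 (tenc l)) (11 * l.length + 3) := by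
  have h1 := run_move (i := 0) (j := 1) (by omega) l (S4 1 l [] [] []) (S4_0 _ _ _ _)
  rw [upd_0, upd_n (le_refl _), S4_n (le_refl _), List.append_nil] at h1
  have h2 := RunsIn.push (S4 1 [] l.reverse [] []) 0 false
  rw [upd_0, S4_0] at h2
  have h3 := run_inLoop l.reverse []
  rw [tenc_nil, List.reverse_reverse, List.append_nil] at h3
  have h := h1.seq (h2.seq h3)
  rw [S4_st0, S4_st0] at h
  refine RunsIn.mono h ?_
  simp only [List.length_reverse]
  omega

theorem inC_bdd : inC.Bdd 2 := by
  refine ⟨move_bdd (by omega) (by omega), show 0 < 2 by omega, ?_⟩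
  refine ⟨by omega, by omega, trivial, ?_, ?_⟩
  · exact ⟨show 1 < 2 by omega, show 0 < 2 by omega, show 0 < 2 by omega⟩
  · exact ⟨show 1 < 2 by omega, show 0 < 2 by omega, show 0 < 2 by omega, show 0 < 2 by omega,
      show 0 < 2 by omega⟩

/-- Convert the encoding of a list of Booleans to the raw string, reversed on stack `1`. -/
def outLoop : Cmd :=
  .loop 0 (.test 0 .skip (.pop 0) (.seq (.pop 0) (.test 0 .skip (.seq (.pop 0) (.push 1 false))
    (.seq (.pop 0) (.seq (.pop 0) (.seq (.pop 0) (.push 1 true)))))))

/-- Convert the encoding of a list of Booleans to the raw string. -/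
def outC : Cmd := .seq outLoop (move 1 0)

theorem run_outLoop : ∀ (l u : List Bool),
    RunsIn outLoop (S4 1 (tenc l) u [] []) (S4 1 [] (l.reverse ++ u) [] [])
      (8 * l.length + 4) := by
  intro l
  induction l with
  | nil =>
    intro u
    rw [tenc_nil]
    have h0 := RunsIn.pop (S4 1 [false] u [] []) 0
    rw [upd_0, S4_0] at h0
    have hb := RunsIn.testFalse (k := 0) (a := .skip)
      (c := .seq (.pop 0) (.test 0 .skip (.seq (.pop 0) (.push 1 false))
        (.seq (.pop 0) (.seq (.pop 0) (.seq (.pop 0) (.push 1 true))))))
      (S4_0 _ _ _ _) h0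
    have h1 := RunsIn.loopCons (k := 0) (by rw [S4_0]; simp) hb
      (RunsIn.loopNil (S4_0 _ _ _ _))
    exact h1.mono (by simp)
  | cons b l ih =>
    intro u
    cases b with
    | false =>
      rw [tenc_false]
      have h0 := RunsIn.pop (S4 1 (true :: false :: tenc l) u [] []) 0
      rw [upd_0, S4_0] at h0
      have h1 := RunsIn.pop (S4 1 (false :: tenc l) u [] []) 0
      rw [upd_0, S4_0] at h1
      have h2 := RunsIn.push (S4 1 (tenc l) u [] []) 1 false
      rw [upd_n (le_refl _), S4_n (le_refl _)] at h2
      have hi := RunsIn.testFalse (k := 0) (a := .skip)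
        (c := .seq (.pop 0) (.seq (.pop 0) (.seq (.pop 0) (.push 1 true))))
        (s := S4 1 (false :: tenc l) u [] []) (S4_0 _ _ _ _) (h1.seq h2)
      have hb := RunsIn.testTrue (k := 0) (a := .skip) (b := .pop 0)
        (s := S4 1 (true :: false :: tenc l) u [] []) (S4_0 _ _ _ _) (h0.seq hi)
      have h3 := RunsIn.loopCons (k := 0) (by rw [S4_0]; simp) hb (ih (false :: u))
      have e : (false :: l).reverse ++ u = l.reverse ++ false :: u := by simp
      rw [e]
      exact h3.mono (by simp only [List.length_cons]; omega)
    | true =>
      rw [tenc_true]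
      have h0 := RunsIn.pop (S4 1 (true :: true :: false :: false :: tenc l) u [] []) 0
      rw [upd_0, S4_0] at h0
      have h1 := RunsIn.pop (S4 1 (true :: false :: false :: tenc l) u [] []) 0
      rw [upd_0, S4_0] at h1
      have h2 := RunsIn.pop (S4 1 (false :: false :: tenc l) u [] []) 0
      rw [upd_0, S4_0] at h2
      have h3 := RunsIn.pop (S4 1 (false :: tenc l) u [] []) 0
      rw [upd_0, S4_0] at h3
      have h4 := RunsIn.push (S4 1 (tenc l) u [] []) 1 true
      rw [upd_n (le_refl _), S4_n (le_refl _)] at h4
      have hi := RunsIn.testTrue (k := 0) (a := .skip)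
        (b := .seq (.pop 0) (.push 1 false))
        (s := S4 1 (true :: false :: false :: tenc l) u [] []) (S4_0 _ _ _ _)
        (h1.seq (h2.seq (h3.seq h4)))
      have hb := RunsIn.testTrue (k := 0) (a := .skip) (b := .pop 0)
        (s := S4 1 (true :: true :: false :: false :: tenc l) u [] []) (S4_0 _ _ _ _) (h0.seq hi)
      have h5 := RunsIn.loopCons (k := 0) (by rw [S4_0]; simp) hb (ih (true :: u))
      have e : (true :: l).reverse ++ u = l.reverse ++ true :: u := by simp
      rw [e]
      exact h5.mono (by simp only [List.length_cons]; omega)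

theorem run_outC (l : List Bool) :
    RunsIn outC (st0 (tenc l)) (st0 l) (12 * l.length + 5) := by
  have h1 := run_outLoop l []
  rw [List.append_nil] at h1
  have h2 := run_move (i := 1) (j := 0) (by omega) _ (S4 1 [] l.reverse [] [])
    (S4_n (le_refl _) _ _ _ _)
  rw [upd_n (le_refl _), upd_0, S4_0, List.append_nil, List.reverse_reverse] at h2
  have h := h1.seq h2
  rw [S4_st0, S4_st0] at h
  refine RunsIn.mono h ?_
  simp only [List.length_reverse]
  omega

theorem outC_bdd : outC.Bdd 2 := by
  refine ⟨⟨by omega, by omega, trivial, show 0 < 2 by omega, show 0 < 2 by omega, by omega,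
    trivial, ⟨show 0 < 2 by omega, show 1 < 2 by omega⟩, show 0 < 2 by omega, show 0 < 2 by omega,
    show 0 < 2 by omega, show 1 < 2 by omega⟩, move_bdd (by omega) (by omega)⟩

/-! ### The machine -/

/-- The machine running a program with input and output on stack `0`. -/
def machine (n : ℕ) (c : Cmd) : FinTM2 :=
  letI := labFintype c
  { K := Fin (n + 1)
    k₀ := 0
    k₁ := 0
    Γ := fun _ => Bool
    Λ := Option (Lab c)
    main := some (entry c)
    σ := Option Bool
    initialState := none
    Γk₀Fin := inferInstanceAs (Fintype Bool)
    m := fun l =>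
      match l with
      | none => .load (fun _ => none) .halt
      | some l => code n c some none l }

theorem machine_run {n : ℕ} {c : Cmd} {l l' : List Bool} {t : ℕ} (hc : c.Bdd (n + 1))
    (h : Run c (st0 l) (st0 l') t) :
    (flip bind (machine n c).step)^[t + 1] (some (initList (machine n c) l))
      = some (haltList (machine n c) l') := by
  obtain ⟨v', hv'⟩ := simulation (n := n) (Λ := Option (Lab c)) h hc (machine n c).m some none
    (fun _ => rfl) none
  have e1 : initList (machine n c) l
      = (⟨some (some (entry c)), none, restr n (st0 l)⟩ :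
        TM2.Cfg (fun _ : Fin (n + 1) => Bool) (Option (Lab c)) (Option Bool)) := by
    unfold initList
    congr 1
    funext k
    by_cases hk : k = (machine n c).k₀
    · subst hk
      rfl
    · rw [dif_neg hk]
      have h2 : (k : Fin (n + 1)).val ≠ 0 := fun h => hk (Fin.ext (a := (k : Fin (n + 1))) h)
      have h3 : restr n (st0 l) (k : Fin (n + 1)) = [] := by simp [restr, st0, h2]
      exact h3.symm
  have e2 : haltList (machine n c) l'
      = (⟨none, none, restr n (st0 l')⟩ :
        TM2.Cfg (fun _ : Fin (n + 1) => Bool) (Option (Lab c)) (Option Bool)) := by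
    unfold haltList
    congr 1
    funext k
    by_cases hk : k = (machine n c).k₁
    · subst hk
      rfl
    · rw [dif_neg hk]
      have h2 : (k : Fin (n + 1)).val ≠ 0 := fun h => hk (Fin.ext (a := (k : Fin (n + 1))) h)
      have h3 : restr n (st0 l') (k : Fin (n + 1)) = [] := by simp [restr, st0, h2]
      exact h3.symm
  rw [e1, e2, Function.iterate_succ_apply']
  have h2 : (flip bind (machine n c).step)^[t]
      (some (⟨some (some (entry c)), none, restr n (st0 l)⟩ :
        TM2.Cfg (fun _ : Fin (n + 1) => Bool) (Option (Lab c)) (Option Bool)))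
      = some (⟨some none, v', restr n (st0 l')⟩ :
        TM2.Cfg (fun _ : Fin (n + 1) => Bool) (Option (Lab c)) (Option Bool)) := hv'
  rw [h2]
  rfl

/-- A function computed by a stack program in polynomial time is computable in polynomial time in
the sense of Mathlib. -/
theorem Poly.toTM2 {α β : Type} {ea : α → List Bool} {eb : β → List Bool} {f : α → β}
    {F : List Bool → List Bool} (hF : Poly F) (h : ∀ a, F (ea a) = eb (f a)) :
    Nonempty (TM2ComputableInPolyTime ea eb f) := by
  obtain ⟨b, hb, hbm, hb'⟩ := hF.size_bound
  obtain ⟨c, n0, p, hc, hp, hrun⟩ := hF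
  set n := max n0 2 with hn
  have hc' : c.Bdd (n + 1) := hc.mono (by omega)
  set prog : Cmd := .seq inC (.seq c outC) with hprog
  have hbdd : prog.Bdd (n + 1) := ⟨inC_bdd.mono (by omega), hc', outC_bdd.mono (by omega)⟩
  have hsz : ∀ l : List Bool, tsz l ≤ 5 * l.length + 1 := by
    intro l
    induction l with
    | nil => rfl
    | cons a l ih =>
      have h1 : tsz (a :: l) = (toT a).size + tsz l + 1 := by
        show (T.cons (toT a) (toT l)).size = _
        rw [T.size_cons]; rfl
      have h2 : (toT a).size ≤ 3 := by cases a <;> decide
      rw [h1, List.length_cons]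
      omega
  have hlen : ∀ l : List Bool, l.length ≤ tsz l := by
    intro l
    induction l with
    | nil => simp
    | cons a l ih =>
      have h1 : tsz (a :: l) = (toT a).size + tsz l + 1 := by
        show (T.cons (toT a) (toT l)).size = _
        rw [T.size_cons]; rfl
      rw [h1, List.length_cons]
      omega
  obtain ⟨q, hq, hqm, hpq⟩ := hp.exists_mono
  have hall : ∀ l, RunsIn prog (st0 l) (st0 (F l))
      ((11 * l.length + 3) + (q (5 * l.length + 1) + (12 * b (5 * l.length + 1) + 5))) := by
    intro l
    have h1 := run_inC l
    have h2 : RunsIn c (st0 (tenc l)) (st0 (tenc (F l))) (p (tsz l)) := hrun l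
    have h3 := run_outC (F l)
    refine (h1.seq (h2.seq h3)).mono ?_
    have h4 := hpq (tsz l)
    have h5 := hqm (hsz l)
    have h6 := (hlen (F l)).trans ((hb' l).trans (hbm (hsz l)))
    omega
  have hPB : PB (fun k => (11 * k + 3) + (q (5 * k + 1) + (12 * b (5 * k + 1) + 5)) + 1) := by
    have lin : ∀ (a b : ℕ) {f : ℕ → ℕ}, PB f → PB (fun k => a * f k + b) := fun a b _ hf =>
      ((PB.const a).mul hf).add (PB.const b)
    exact ((lin 11 3 PB.id).add ((hq.comp (lin 5 1 PB.id)).add
      (lin 12 5 (hb.comp (lin 5 1 PB.id))))).add (PB.const 1)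
  obtain ⟨k, hk⟩ := hPB
  have hex : ∀ l : List Bool, ∃ t, t ≤ (l.length + 2) ^ k ∧
      (flip bind (machine n prog).step)^[t] (some (initList (machine n prog) l))
        = some (haltList (machine n prog) (F l)) := by
    intro l
    obtain ⟨t, ht, hr⟩ := hall l
    refine ⟨t + 1, ?_, machine_run hbdd hr⟩
    have := hk l.length
    simp only at this
    omega
  refine ⟨{ tm := machine n prog
            inputAlphabet := Equiv.refl Bool
            outputAlphabet := Equiv.refl Bool
            time := (Polynomial.X + 2) ^ k
            outputsFun := fun a => ?_ }⟩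
  have e1 : List.map (Equiv.refl Bool).invFun (ea a) = ea a := by
    exact List.map_id _
  have e2 : List.map (Equiv.refl Bool).invFun (eb (f a)) = eb (f a) := by
    exact List.map_id _
  have hexa : ∃ t, t ≤ ((Polynomial.X + 2) ^ k : Polynomial ℕ).eval (ea a).length ∧
      (flip bind (machine n prog).step)^[t] (some (initList (machine n prog)
        (List.map (Equiv.refl Bool).invFun (ea a))))
        = some (haltList (machine n prog) (List.map (Equiv.refl Bool).invFun (eb (f a)))) := by
    obtain ⟨t, ht, hr⟩ := hex (ea a)
    refine ⟨t, ?_, ?_⟩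
    · simpa using ht
    · rw [h] at hr
      let Φ : List Bool → List Bool → Prop := fun l l' =>
        (flip bind (machine n prog).step)^[t] (some (initList (machine n prog) l))
          = some (haltList (machine n prog) l')
      have h1 : Φ (ea a) (eb (f a)) := hr
      have h2 : Φ (List.map (Equiv.refl Bool).invFun (ea a))
          (List.map (Equiv.refl Bool).invFun (eb (f a))) := by
        rw [e1, e2]
        exact h1
      exact h2
  exact { steps := hexa.choose
          evals_in_steps := hexa.choose_spec.2
          steps_le_m := hexa.choose_spec.1 }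

end Pool.Agent.Helper86.PT
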