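import Pool.Agent.Helper86.Poly.Cmd

/-!
Binary trees, their encodings as bit strings, and functions on trees computed by stack programs in
polynomial time.
-/

set_option autoImplicit false

namespace Pool.Agent.Helper86.PT

open Function (update)

/-- `c` runs from `s` to `s'` in at most `T` steps. -/
def RunsIn (c : Cmd) (s s' : St) (T : ℕ) : Prop := ∃ t ≤ T, Run c s s' t

theorem Run.in {c : Cmd} {s s' : St} {t : ℕ} (h : Run c s s' t) : RunsIn c s s' t :=
  ⟨t, le_refl _, h⟩

theorem RunsIn.mono {c : Cmd} {s s' : St} {T T' : ℕ} (h : RunsIn c s s' T) (hT : T ≤ T') :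
    RunsIn c s s' T' := by
  obtain ⟨t, ht, h⟩ := h
  exact ⟨t, ht.trans hT, h⟩

theorem RunsIn.seq {a b : Cmd} {s s' s'' : St} {T T' : ℕ} (h : RunsIn a s s' T)
    (h' : RunsIn b s' s'' T') : RunsIn (.seq a b) s s'' (T + T') := by
  obtain ⟨t, ht, h⟩ := h
  obtain ⟨t', ht', h'⟩ := h'
  exact ⟨t + t', add_le_add ht ht', h.seq h'⟩

theorem RunsIn.congr {c : Cmd} {s s' s'' : St} {T : ℕ} (h : RunsIn c s s' T) (e : s' = s'') :
    RunsIn c s s'' T := e ▸ h

theorem RunsIn.push (s : St) (k : ℕ) (b : Bool) : RunsIn (.push k b) s (update s k (b :: s k)) 1 :=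
  (Run.push s k b).in

theorem RunsIn.pop (s : St) (k : ℕ) : RunsIn (.pop k) s (update s k (s k).tail) 1 :=
  (Run.pop s k).in

theorem RunsIn.skip (s : St) : RunsIn .skip s s 1 := (Run.skip s).in

theorem RunsIn.testFalse {k : ℕ} {a b c : Cmd} {s s' : St} {T : ℕ} {l : List Bool}
    (hk : s k = false :: l) (h : RunsIn b s s' T) : RunsIn (.test k a b c) s s' (T + 1) := by
  obtain ⟨t, ht, h⟩ := h
  exact ⟨t + 1, by omega, Run.testFalse hk h⟩

theorem RunsIn.testTrue {k : ℕ} {a b c : Cmd} {s s' : St} {T : ℕ} {l : List Bool}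
    (hk : s k = true :: l) (h : RunsIn c s s' T) : RunsIn (.test k a b c) s s' (T + 1) := by
  obtain ⟨t, ht, h⟩ := h
  exact ⟨t + 1, by omega, Run.testTrue hk h⟩

theorem RunsIn.testNil {k : ℕ} {a b c : Cmd} {s s' : St} {T : ℕ}
    (hk : s k = []) (h : RunsIn a s s' T) : RunsIn (.test k a b c) s s' (T + 1) := by
  obtain ⟨t, ht, h⟩ := h
  exact ⟨t + 1, by omega, Run.testNil hk h⟩

theorem RunsIn.loopNil {k : ℕ} {a : Cmd} {s : St} (hk : s k = []) : RunsIn (.loop k a) s s 1 :=
  (Run.loopNil hk).in

theorem RunsIn.loopCons {k : ℕ} {a : Cmd} {s s' s'' : St} {T T' : ℕ} (hk : s k ≠ [])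
    (h : RunsIn a s s' T) (h' : RunsIn (.loop k a) s' s'' T') :
    RunsIn (.loop k a) s s'' (T + T' + 1) := by
  obtain ⟨t, ht, h⟩ := h
  obtain ⟨t', ht', h'⟩ := h'
  exact ⟨t + t' + 1, by omega, Run.loopCons hk h h'⟩

theorem RunsIn.frame {c : Cmd} {s s' : St} {T : ℕ} (h : RunsIn c s s' T) {n : ℕ} (hc : c.Bdd n)
    (r : St) : RunsIn c (glue n s r) (glue n s' r) T := by
  obtain ⟨t, ht, h⟩ := h
  exact ⟨t, ht, h.frame hc r⟩

/-! ### Basic programs -/

/-- Empty a stack. -/
def clear (k : ℕ) : Cmd := .loop k (.pop k)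

theorem clear_bdd {n k : ℕ} (h : k < n) : (clear k).Bdd n := ⟨h, h⟩

theorem run_clear (k : ℕ) : ∀ (l : List Bool) (s : St), s k = l →
    RunsIn (clear k) s (update s k []) (2 * l.length + 1) := by
  intro l
  induction l with
  | nil =>
    intro s hs
    refine (RunsIn.loopNil hs).congr ?_
    rw [← hs, Function.update_eq_self]
  | cons b l ih =>
    intro s hs
    have h1 := RunsIn.pop s k
    have h2 := ih (update s k (s k).tail) (by simp [hs])
    have h3 := RunsIn.loopCons (by rw [hs]; simp) h1 h2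
    refine (h3.congr ?_).mono ?_
    · rw [Function.update_idem]
    · simp; omega

/-- Move a stack onto another one, reversing it. -/
def move (i j : ℕ) : Cmd :=
  .loop i (.test i .skip (.seq (.pop i) (.push j false)) (.seq (.pop i) (.push j true)))

theorem move_bdd {n i j : ℕ} (hi : i < n) (hj : j < n) : (move i j).Bdd n :=
  ⟨hi, hi, trivial, ⟨hi, hj⟩, ⟨hi, hj⟩⟩

theorem run_move {i j : ℕ} (hij : i ≠ j) : ∀ (l : List Bool) (s : St), s i = l →
    RunsIn (move i j) s (update (update s i []) j (l.reverse ++ s j)) (4 * l.length + 1) := by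
  intro l
  induction l with
  | nil =>
    intro s hs
    refine (RunsIn.loopNil hs).congr ?_
    funext k
    by_cases hk : k = j
    · subst hk; simp
    · rw [Function.update_of_ne hk]
      by_cases hk' : k = i
      · subst hk'; simp [hs]
      · rw [Function.update_of_ne hk']
  | cons b l ih =>
    intro s hs
    have hbody : RunsIn (.test i .skip (.seq (.pop i) (.push j false))
        (.seq (.pop i) (.push j true))) s (update (update s i l) j (b :: s j)) 3 := by
      have e : (s i).tail = l := by rw [hs]; rfl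
      have h0 := RunsIn.pop s i
      rw [e] at h0
      cases b with
      | false =>
        have h1 := RunsIn.push (update s i l) j false
        rw [Function.update_of_ne hij.symm] at h1
        exact RunsIn.testFalse hs (h0.seq h1)
      | true =>
        have h1 := RunsIn.push (update s i l) j true
        rw [Function.update_of_ne hij.symm] at h1
        exact RunsIn.testTrue hs (h0.seq h1)
    have h2 := ih (update (update s i l) j (b :: s j))
      (by rw [Function.update_of_ne hij, Function.update_self])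
    have h3 := RunsIn.loopCons (by rw [hs]; simp) hbody h2
    refine (h3.congr ?_).mono ?_
    · funext k
      simp only [Function.update_apply]
      split_ifs <;> simp_all
    · simp; omega

/-- Move a stack onto two other ones, reversing it. -/
def dup (k i j : ℕ) : Cmd :=
  .loop k (.test k .skip (.seq (.pop k) (.seq (.push i false) (.push j false)))
    (.seq (.pop k) (.seq (.push i true) (.push j true))))

theorem dup_bdd {n k i j : ℕ} (hk : k < n) (hi : i < n) (hj : j < n) : (dup k i j).Bdd n :=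
  ⟨hk, hk, trivial, ⟨hk, hi, hj⟩, ⟨hk, hi, hj⟩⟩

theorem run_dup {k i j : ℕ} (hki : k ≠ i) (hkj : k ≠ j) (hij : i ≠ j) :
    ∀ (l : List Bool) (s : St), s k = l →
    RunsIn (dup k i j) s (update (update (update s k []) i (l.reverse ++ s i)) j
      (l.reverse ++ s j)) (5 * l.length + 1) := by
  intro l
  induction l with
  | nil =>
    intro s hs
    refine (RunsIn.loopNil hs).congr ?_
    funext m
    simp only [Function.update_apply]
    split_ifs <;> simp_all
  | cons b l ih =>
    intro s hs
    have hbody : RunsIn (.test k .skip (.seq (.pop k) (.seq (.push i false) (.push j false)))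
        (.seq (.pop k) (.seq (.push i true) (.push j true)))) s
        (update (update (update s k l) i (b :: s i)) j (b :: s j)) 4 := by
      have e : (s k).tail = l := by rw [hs]; rfl
      have h0 := RunsIn.pop s k
      rw [e] at h0
      have h1 := RunsIn.push (update s k l) i b
      rw [Function.update_of_ne hki.symm] at h1
      have h2 := RunsIn.push (update (update s k l) i (b :: s i)) j b
      rw [Function.update_of_ne hij.symm, Function.update_of_ne hkj.symm] at h2
      cases b with
      | false => exact RunsIn.testFalse hs (h0.seq (h1.seq h2))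
      | true => exact RunsIn.testTrue hs (h0.seq (h1.seq h2))
    have h2 := ih (update (update (update s k l) i (b :: s i)) j (b :: s j))
      (by rw [Function.update_of_ne hkj, Function.update_of_ne hki, Function.update_self])
    have h3 := RunsIn.loopCons (by rw [hs]; simp) hbody h2
    refine (h3.congr ?_).mono ?_
    · funext m
      simp only [Function.update_apply]
      split_ifs <;> simp_all
    · simp; omega

/-- Copy stack `i` to stack `j`, using the empty stack `k`. -/
def copy (i j k : ℕ) : Cmd := .seq (move i k) (dup k i j)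

theorem copy_bdd {n i j k : ℕ} (hi : i < n) (hj : j < n) (hk : k < n) : (copy i j k).Bdd n :=
  ⟨move_bdd hi hk, dup_bdd hk hi hj⟩

theorem run_copy {i j k : ℕ} (hki : k ≠ i) (hkj : k ≠ j) (hij : i ≠ j) (s : St) (hk : s k = []) :
    RunsIn (copy i j k) s (update s j (s i ++ s j)) (9 * (s i).length + 2) := by
  have h1 := run_move hki.symm (s i) s rfl
  have h2 := run_dup hki hkj hij (s i).reverse
    (update (update s i []) k ((s i).reverse ++ s k)) (by rw [Function.update_self, hk]; simp)
  refine ((h1.seq h2).congr ?_).mono ?_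
  · funext m
    simp only [Function.update_apply]
    split_ifs <;> simp_all
  · simp; omega

/-! ### Polynomially bounded functions -/

/-- `f` is bounded by a polynomial. -/
def PB (f : ℕ → ℕ) : Prop := ∃ k, ∀ n, f n ≤ (n + 2) ^ k

theorem PB.mono {f g : ℕ → ℕ} (h : PB g) (hfg : ∀ n, f n ≤ g n) : PB f := by
  obtain ⟨k, hk⟩ := h
  exact ⟨k, fun n => (hfg n).trans (hk n)⟩

theorem PB.const (c : ℕ) : PB (fun _ => c) := by
  refine ⟨c, fun n => ?_⟩
  calc c ≤ 2 ^ c := Nat.lt_two_pow_self.le
    _ ≤ (n + 2) ^ c := Nat.pow_le_pow_left (by omega) c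

theorem PB.id : PB (fun n => n) := ⟨1, fun n => by simp⟩

theorem PB.add {f g : ℕ → ℕ} (hf : PB f) (hg : PB g) : PB (fun n => f n + g n) := by
  obtain ⟨k, hk⟩ := hf
  obtain ⟨j, hj⟩ := hg
  refine ⟨max k j + 1, fun n => ?_⟩
  have h1 : (n + 2) ^ k ≤ (n + 2) ^ max k j := Nat.pow_le_pow_right (by omega) (le_max_left _ _)
  have h2 : (n + 2) ^ j ≤ (n + 2) ^ max k j := Nat.pow_le_pow_right (by omega) (le_max_right _ _)
  calc f n + g n ≤ (n + 2) ^ max k j + (n + 2) ^ max k j := by
        have := hk n; have := hj n; omega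
    _ = (n + 2) ^ max k j * 2 := by ring
    _ ≤ (n + 2) ^ max k j * (n + 2) := Nat.mul_le_mul_left _ (by omega)
    _ = (n + 2) ^ (max k j + 1) := by ring

theorem PB.mul {f g : ℕ → ℕ} (hf : PB f) (hg : PB g) : PB (fun n => f n * g n) := by
  obtain ⟨k, hk⟩ := hf
  obtain ⟨j, hj⟩ := hg
  refine ⟨k + j, fun n => ?_⟩
  rw [pow_add]
  exact Nat.mul_le_mul (hk n) (hj n)

theorem PB.pow {f : ℕ → ℕ} (hf : PB f) (c : ℕ) : PB (fun n => f n ^ c) := by
  induction c with
  | zero => simpa using PB.const 1
  | succ c ih => simpa [pow_succ] using ih.mul hf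

theorem PB.comp {f g : ℕ → ℕ} (hf : PB f) (hg : PB g) : PB (fun n => f (g n)) := by
  obtain ⟨k, hk⟩ := hf
  exact PB.mono ((hg.add (PB.const 2)).pow k) (fun n => hk (g n))

/-- A monotone polynomial bound. -/
theorem PB.exists_mono {f : ℕ → ℕ} (hf : PB f) :
    ∃ g : ℕ → ℕ, PB g ∧ Monotone g ∧ ∀ n, f n ≤ g n := by
  obtain ⟨k, hk⟩ := hf
  exact ⟨fun n => (n + 2) ^ k, ⟨k, fun n => le_refl _⟩,
    fun a b h => Nat.pow_le_pow_left (by omega) k, hk⟩

/-! ### Trees -/

/-- Binary trees. -/
inductive T : Type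
  | nil : T
  | cons : T → T → T
  deriving DecidableEq

/-- Encoding of trees as bit strings. -/
def T.enc : T → List Bool
  | .nil => [false]
  | .cons a b => true :: (a.enc ++ b.enc)

/-- The size of a tree is the length of its encoding. -/
def T.size (t : T) : ℕ := t.enc.length

@[simp] theorem T.size_nil : T.nil.size = 1 := rfl

@[simp] theorem T.size_cons (a b : T) : (T.cons a b).size = a.size + b.size + 1 := by
  simp [T.size, T.enc]

theorem T.size_pos (t : T) : 0 < t.size := by
  cases t <;> simp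

/-- The number of inner nodes. -/
def T.nodes : T → ℕ
  | .nil => 0
  | .cons a b => a.nodes + b.nodes + 1

theorem T.size_eq (t : T) : t.size = 2 * t.nodes + 1 := by
  induction t with
  | nil => rfl
  | cons a b iha ihb => rw [T.size_cons, iha, ihb, T.nodes]; ring

/-- left subtree -/
def T.hd : T → T
  | .nil => .nil
  | .cons a _ => a

/-- right subtree -/
def T.tl : T → T
  | .nil => .nil
  | .cons _ b => b

/-- The memory state with the string `l` on stack `0`. -/
def st0 (l : List Bool) : St := fun k => if k = 0 then l else []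

/-- Types whose elements are represented by trees. -/
class TEnc (α : Type) where
  /-- the tree of an element -/
  toT : α → T
  /-- the representation is faithful -/
  inj : Function.Injective toT

export TEnc (toT)

instance : TEnc T := ⟨fun x => x, fun _ _ h => h⟩

/-- The bit string of an element. -/
def tenc {α : Type} [TEnc α] (x : α) : List Bool := (toT x).enc

/-- The size of an element. -/
def tsz {α : Type} [TEnc α] (x : α) : ℕ := (toT x).size

variable {α β γ : Type} [TEnc α] [TEnc β] [TEnc γ]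

theorem tenc_length (x : α) : (tenc x).length = tsz x := rfl

/-- `F` is computed by a stack program in polynomial time. -/
def PolyT (F : α → T) : Prop :=
  ∃ (c : Cmd) (n : ℕ) (p : ℕ → ℕ), c.Bdd n ∧ PB p ∧
    ∀ x, RunsIn c (st0 (tenc x)) (st0 (F x).enc) (p (tsz x))

/-- `f` is computed by a stack program in polynomial time. -/
def Poly (f : α → β) : Prop := PolyT (fun x => toT (f x))

/-- The output of a polynomial time function has polynomial size. -/
theorem PolyT.size_bound {F : α → T} (h : PolyT F) :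
    ∃ b : ℕ → ℕ, PB b ∧ ∀ x, (F x).size ≤ b (tsz x) := by
  obtain ⟨c, n, p, _, hp, hrun⟩ := h
  refine ⟨fun n => n + p n, PB.id.add hp, fun x => ?_⟩
  obtain ⟨t, ht, hr⟩ := hrun x
  have := hr.length_le 0
  simp only [st0, if_true] at this
  simp only [T.size, tsz, tenc] at *
  omega

theorem Poly.size_bound {f : α → β} (h : Poly f) :
    ∃ b : ℕ → ℕ, PB b ∧ Monotone b ∧ ∀ x, tsz (f x) ≤ b (tsz x) := by
  obtain ⟨b, hb, hb'⟩ := PolyT.size_bound h
  obtain ⟨q, hq, hqm, hpq⟩ := hb.exists_mono
  exact ⟨q, hq, hqm, fun x => (hb' x).trans (hpq _)⟩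

theorem PolyT.self : PolyT (fun x : α => toT x) :=
  ⟨.skip, 0, fun _ => 1, trivial, PB.const 1, fun _ => RunsIn.skip _⟩

theorem Poly.id : Poly (fun x : α => x) := PolyT.self

theorem PolyT.comp {F : β → T} {g : α → β} (hF : PolyT F) (hG : Poly g) :
    PolyT (fun x => F (g x)) := by
  obtain ⟨b, hb, hb'⟩ := PolyT.size_bound hG
  obtain ⟨c, n, p, hc, hp, hrun⟩ := hF
  obtain ⟨c', n', p', hc', hp', hrun'⟩ := hG
  obtain ⟨q, hq, hqm, hpq⟩ := hp.exists_mono
  refine ⟨.seq c' c, max n n', fun k => p' k + q (b k),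
    ⟨hc'.mono (le_max_right _ _), hc.mono (le_max_left _ _)⟩, hp'.add (hq.comp hb), fun x => ?_⟩
  refine ((hrun' x).seq (hrun (g x))).mono ?_
  have h1 := hpq (tsz (g x))
  have h2 := hqm (hb' x)
  exact Nat.add_le_add_left (h1.trans h2) _

theorem Poly.comp {f : β → γ} {g : α → β} (hf : Poly f) (hg : Poly g) :
    Poly (fun x => f (g x)) := PolyT.comp (F := fun y => toT (f y)) hf hg

theorem PolyT.nil : PolyT (fun _ : α => T.nil) := by
  refine ⟨.seq (clear 0) (.push 0 false), 1, fun k => 2 * k + 2, ⟨clear_bdd (by omega),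
    show 0 < 1 by omega⟩, ((PB.const 2).mul PB.id).add (PB.const 2), fun x => ?_⟩
  have h1 := run_clear 0 (tenc x) (st0 (tenc x)) rfl
  have h2 := RunsIn.push (update (st0 (tenc x)) 0 []) 0 false
  refine ((h1.seq h2).congr ?_).mono ?_
  · funext k
    by_cases hk : k = 0
    · subst hk; simp [st0, T.enc]
    · simp [st0, hk]
  · show 2 * (tenc x).length + 1 + 1 ≤ 2 * (tenc x).length + 2
    omega

theorem glue_st0 (n : ℕ) (l : List Bool) (s : St) (h0 : s 0 = l)
    (hs : ∀ k, 0 < k → k < n → s k = []) : glue n (st0 l) s = s := by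
  funext k
  by_cases hk : k < n
  · rw [glue_lt _ _ hk]
    by_cases hk0 : k = 0
    · subst hk0; simp [st0, h0]
    · rw [hs k (by omega) hk]; simp [st0, hk0]
  · rw [glue_ge _ _ (by omega)]

/-- Running a program for `F` inside a larger memory. -/
theorem run_inside {c : Cmd} {n T : ℕ} {l l' : List Bool} (hc : c.Bdd n) (hn : 1 ≤ n)
    (h : RunsIn c (st0 l) (st0 l') T) (s : St) (h0 : s 0 = l)
    (hs : ∀ k, 0 < k → k < n → s k = []) : RunsIn c s (update s 0 l') T := by
  have h1 := h.frame hc s
  rw [glue_st0 n l s h0 hs] at h1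
  refine h1.congr ?_
  funext k
  by_cases hk : k < n
  · rw [glue_lt _ _ hk]
    by_cases hk0 : k = 0
    · subst hk0; simp [st0]
    · rw [Function.update_of_ne hk0, hs k (by omega) hk]; simp [st0, hk0]
  · rw [glue_ge _ _ (by omega), Function.update_of_ne (by omega)]

/-! ### Memory states with four named stacks -/

/-- `A` on stack `0`, and `B`, `C`, `D` on the stacks `n`, `n + 1`, `n + 2`. -/
def S4 (n : ℕ) (A B C D : List Bool) : St := fun k =>
  if k = 0 then A else if k = n then B else if k = n + 1 then C else if k = n + 2 then D else []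

section S4

variable {n : ℕ} (hn : 1 ≤ n) (A B C D l : List Bool)

theorem S4_0 : S4 n A B C D 0 = A := by simp [S4]

include hn in
theorem S4_n : S4 n A B C D n = B := by
  have : n ≠ 0 := by omega
  simp [S4, this]

theorem S4_n1 : S4 n A B C D (n + 1) = C := by simp [S4]

theorem S4_n2 : S4 n A B C D (n + 2) = D := by simp [S4]

theorem S4_low {k : ℕ} (h0 : 0 < k) (hk : k < n) : S4 n A B C D k = [] := by
  unfold S4
  rw [if_neg (by omega), if_neg (by omega), if_neg (by omega), if_neg (by omega)]

theorem upd_0 : update (S4 n A B C D) 0 l = S4 n l B C D := by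
  funext k
  by_cases h : k = 0
  · subst h; simp [S4]
  · rw [Function.update_of_ne h]; simp [S4, h]

include hn in
theorem upd_n : update (S4 n A B C D) n l = S4 n A l C D := by
  funext k
  by_cases h : k = n
  · subst h
    rw [Function.update_self, S4_n hn]
  · rw [Function.update_of_ne h]; simp [S4, h]

theorem upd_n1 : update (S4 n A B C D) (n + 1) l = S4 n A B l D := by
  funext k
  by_cases h : k = n + 1
  · subst h
    rw [Function.update_self, S4_n1]
  · rw [Function.update_of_ne h]; simp [S4, h]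

theorem upd_n2 : update (S4 n A B C D) (n + 2) l = S4 n A B C l := by
  funext k
  by_cases h : k = n + 2
  · subst h
    rw [Function.update_self, S4_n2]
  · rw [Function.update_of_ne h]; simp [S4, h]

theorem S4_st0 : S4 n A [] [] [] = st0 A := by
  funext k
  simp [S4, st0]

end S4

theorem PolyT.cons {F G : α → T} (hF : PolyT F) (hG : PolyT G) :
    PolyT (fun x => .cons (F x) (G x)) := by
  obtain ⟨bF, hbF, hbF'⟩ := hF.size_bound
  obtain ⟨bG, hbG, hbG'⟩ := hG.size_bound
  obtain ⟨cF, nF, pF, hcF, hpF, hrF⟩ := hF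
  obtain ⟨cG, nG, pG, hcG, hpG, hrG⟩ := hG
  set n := max (max nF nG) 1 with hn
  have hcF' : cF.Bdd n := hcF.mono (by omega)
  have hcG' : cG.Bdd n := hcG.mono (by omega)
  have hn1 : 1 ≤ n := by omega
  refine ⟨.seq (copy 0 n (n + 1)) (.seq cG (.seq (move 0 (n + 1)) (.seq (move n (n + 2))
    (.seq (move (n + 2) 0) (.seq cF (.seq (move 0 (n + 2)) (.seq (move (n + 1) 0)
    (.seq (move (n + 2) 0) (.push 0 true))))))))), n + 3,
    fun k => (9 * k + 2) + (pG k + ((4 * bG k + 1) + ((4 * k + 1) + ((4 * k + 1) + (pF k +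
      ((4 * bF k + 1) + ((4 * bG k + 1) + ((4 * bF k + 1) + 1)))))))), ?_, ?_, fun x => ?_⟩
  · refine ⟨copy_bdd (by omega) (by omega) (by omega), hcG'.mono (by omega),
      move_bdd (by omega) (by omega), move_bdd (by omega) (by omega),
      move_bdd (by omega) (by omega), hcF'.mono (by omega), move_bdd (by omega) (by omega),
      move_bdd (by omega) (by omega), move_bdd (by omega) (by omega), ?_⟩
    show 0 < n + 3
    omega
  · have lin : ∀ (a b : ℕ) {f : ℕ → ℕ}, PB f → PB (fun k => a * f k + b) := fun a b _ hf =>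
      ((PB.const a).mul hf).add (PB.const b)
    exact (lin 9 2 PB.id).add (hpG.add ((lin 4 1 hbG).add ((lin 4 1 PB.id).add ((lin 4 1 PB.id).add
      (hpF.add ((lin 4 1 hbF).add ((lin 4 1 hbG).add ((lin 4 1 hbF).add (PB.const 1)))))))))
  · have r0 := run_copy (i := 0) (j := n) (k := n + 1) (by omega) (by omega) (by omega)
      (S4 n (tenc x) [] [] []) (S4_n1 _ _ _ _)
    rw [upd_n hn1, S4_0, S4_n hn1, List.append_nil] at r0
    have r1 := run_inside hcG' hn1 (hrG x) (S4 n (tenc x) (tenc x) [] []) (S4_0 _ _ _ _)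
      (fun k h1 h2 => S4_low _ _ _ _ h1 h2)
    rw [upd_0] at r1
    have r2 := run_move (i := 0) (j := n + 1) (by omega) _ (S4 n (G x).enc (tenc x) [] [])
      (S4_0 _ _ _ _)
    rw [upd_0, upd_n1, S4_n1, List.append_nil] at r2
    have r3 := run_move (i := n) (j := n + 2) (by omega) _ (S4 n [] (tenc x) (G x).enc.reverse [])
      (S4_n hn1 _ _ _ _)
    rw [upd_n hn1, upd_n2, S4_n2, List.append_nil] at r3
    have r4 := run_move (i := n + 2) (j := 0) (by omega) _
      (S4 n [] [] (G x).enc.reverse (tenc x).reverse) (S4_n2 _ _ _ _)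
    rw [upd_n2, upd_0, S4_0, List.append_nil, List.reverse_reverse] at r4
    have r5 := run_inside hcF' hn1 (hrF x) (S4 n (tenc x) [] (G x).enc.reverse []) (S4_0 _ _ _ _)
      (fun k h1 h2 => S4_low _ _ _ _ h1 h2)
    rw [upd_0] at r5
    have r6 := run_move (i := 0) (j := n + 2) (by omega) _
      (S4 n (F x).enc [] (G x).enc.reverse []) (S4_0 _ _ _ _)
    rw [upd_0, upd_n2, S4_n2, List.append_nil] at r6
    have r7 := run_move (i := n + 1) (j := 0) (by omega) _
      (S4 n [] [] (G x).enc.reverse (F x).enc.reverse) (S4_n1 _ _ _ _)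
    rw [upd_n1, upd_0, S4_0, List.append_nil, List.reverse_reverse] at r7
    have r8 := run_move (i := n + 2) (j := 0) (by omega) _
      (S4 n (G x).enc [] [] (F x).enc.reverse) (S4_n2 _ _ _ _)
    rw [upd_n2, upd_0, S4_0, List.reverse_reverse] at r8
    have r9 := RunsIn.push (S4 n ((F x).enc ++ (G x).enc) [] [] []) 0 true
    rw [upd_0, S4_0] at r9
    have h := r0.seq (r1.seq (r2.seq (r3.seq (r4.seq (r5.seq (r6.seq (r7.seq (r8.seq r9))))))))
    rw [S4_st0, S4_st0] at h
    refine RunsIn.mono h ?_
    have hG' : (G x).enc.length ≤ bG (tsz x) := hbG' x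
    have hF' : (F x).enc.length ≤ bF (tsz x) := hbF' x
    have hx : (tenc x).length = tsz x := rfl
    simp only [List.length_reverse, hx]
    omega

/-! ### Parsing -/

/-- The body of the parsing loop. -/
def parseBody (n : ℕ) : Cmd :=
  .test 0 (.pop (n + 1)) (.seq (.pop 0) (.seq (.push n false) (.pop (n + 1))))
    (.seq (.pop 0) (.seq (.push n true) (.push (n + 1) true)))

/-- Move the encoding of one tree from stack `0` to stack `n`, reversed, using stack `n + 1`. -/
def parse (n : ℕ) : Cmd := .seq (.push (n + 1) true) (.loop (n + 1) (parseBody n))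

theorem parse_bdd {n m : ℕ} (h : n + 1 < m) : (parse n).Bdd m := by
  have h0 : 0 < m := by omega
  have h1 : n < m := by omega
  exact ⟨h, h, h0, h, ⟨h0, h1, h⟩, ⟨h0, h1, h⟩⟩

theorem run_parse_loop {n : ℕ} (hn : 1 ≤ n) (D : List Bool) :
    ∀ (a : T) (r u c : List Bool) (s'' : St) (T' : ℕ),
    RunsIn (.loop (n + 1) (parseBody n)) (S4 n r (a.enc.reverse ++ u) c D) s'' T' →
    RunsIn (.loop (n + 1) (parseBody n)) (S4 n (a.enc ++ r) u (true :: c) D) s''
      (5 * a.size + T') := by
  intro a
  induction a with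
  | nil =>
    intro r u c s'' T' h
    have h1 := RunsIn.pop (S4 n (false :: r) u (true :: c) D) 0
    rw [upd_0, S4_0] at h1
    have h2 := RunsIn.push (S4 n r u (true :: c) D) n false
    rw [upd_n hn, S4_n hn] at h2
    have h3 := RunsIn.pop (S4 n r (false :: u) (true :: c) D) (n + 1)
    rw [upd_n1, S4_n1] at h3
    have hb : RunsIn (parseBody n) (S4 n (false :: r) u (true :: c) D)
        (S4 n r (false :: u) c D) 4 :=
      RunsIn.testFalse (S4_0 _ _ _ _) (h1.seq (h2.seq h3))
    have h4 := RunsIn.loopCons (k := n + 1) (by rw [S4_n1]; simp) hb h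
    exact h4.mono (by simp only [T.size_nil]; omega)
  | cons a b iha ihb =>
    intro r u c s'' T' h
    have h1 := RunsIn.pop (S4 n (true :: (a.enc ++ (b.enc ++ r))) u (true :: c) D) 0
    rw [upd_0, S4_0] at h1
    have h2 := RunsIn.push (S4 n (a.enc ++ (b.enc ++ r)) u (true :: c) D) n true
    rw [upd_n hn, S4_n hn] at h2
    have h3 := RunsIn.push (S4 n (a.enc ++ (b.enc ++ r)) (true :: u) (true :: c) D) (n + 1) true
    rw [upd_n1, S4_n1] at h3
    have hb : RunsIn (parseBody n) (S4 n (true :: (a.enc ++ (b.enc ++ r))) u (true :: c) D)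
        (S4 n (a.enc ++ (b.enc ++ r)) (true :: u) (true :: true :: c) D) 4 :=
      RunsIn.testTrue (S4_0 _ _ _ _) (h1.seq (h2.seq h3))
    have e : (T.cons a b).enc.reverse ++ u = b.enc.reverse ++ (a.enc.reverse ++ (true :: u)) := by
      simp [T.enc]
    rw [e] at h
    have h5 := ihb r (a.enc.reverse ++ (true :: u)) c s'' T' h
    have h6 := iha (b.enc ++ r) (true :: u) (true :: c) s'' _ h5
    have h7 := RunsIn.loopCons (k := n + 1) (by rw [S4_n1]; simp) hb h6
    have e2 : (T.cons a b).enc ++ r = true :: (a.enc ++ (b.enc ++ r)) := by simp [T.enc]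
    rw [e2]
    exact h7.mono (by simp; omega)

theorem run_parse {n : ℕ} (hn : 1 ≤ n) (a : T) (r u D : List Bool) :
    RunsIn (parse n) (S4 n (a.enc ++ r) u [] D) (S4 n r (a.enc.reverse ++ u) [] D)
      (5 * a.size + 2) := by
  have h1 := RunsIn.push (S4 n (a.enc ++ r) u [] D) (n + 1) true
  rw [upd_n1, S4_n1] at h1
  have h2 := run_parse_loop hn D a r u [] _ 1 (RunsIn.loopNil (S4_n1 _ _ _ _))
  exact (h1.seq h2).mono (by omega)

theorem PolyT.hd' : PolyT T.hd := by
  refine ⟨.test 0 .skip .skip (.seq (.pop 0) (.seq (parse 1) (.seq (clear 0) (move 1 0)))), 3,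
    fun k => 20 * k + 20, ?_, ((PB.const 20).mul PB.id).add (PB.const 20), fun x => ?_⟩
  · exact ⟨by omega, trivial, trivial, show 0 < 3 by omega, parse_bdd (by omega),
      clear_bdd (by omega), move_bdd (by omega) (by omega)⟩
  · cases x with
    | nil =>
      have h : RunsIn .skip (st0 T.nil.enc) (st0 T.nil.enc) 1 := RunsIn.skip _
      have h1 := RunsIn.testFalse (k := 0) (a := .skip)
        (c := .seq (.pop 0) (.seq (parse 1) (.seq (clear 0) (move 1 0))))
        (l := []) (by simp [st0, T.enc]) h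
      exact h1.mono (by show _ ≤ 20 * _ + 20; omega)
    | cons a b =>
      have h1 := RunsIn.pop (S4 1 (true :: (a.enc ++ b.enc)) [] [] []) 0
      rw [upd_0, S4_0] at h1
      have h2 := run_parse (n := 1) (le_refl _) a b.enc [] []
      rw [List.append_nil] at h2
      have h3 := run_clear 0 _ (S4 1 b.enc a.enc.reverse [] []) (S4_0 _ _ _ _)
      rw [upd_0] at h3
      have h4 := run_move (i := 1) (j := 0) (by omega) _ (S4 1 [] a.enc.reverse [] [])
        (S4_n (le_refl _) _ _ _ _)
      rw [upd_n (le_refl _), upd_0, S4_0, List.append_nil, List.reverse_reverse, S4_st0] at h4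
      have h5 := h1.seq (h2.seq (h3.seq h4))
      have h6 := RunsIn.testTrue (k := 0) (a := .skip) (b := .skip) (S4_0 _ _ _ _) h5
      rw [S4_st0] at h6
      refine h6.mono ?_
      simp only [List.length_reverse]
      have e1 : a.enc.length = a.size := rfl
      have e2 : b.enc.length = b.size := rfl
      show _ ≤ 20 * (T.cons a b).size + 20
      rw [e1, e2, T.size_cons]
      omega

theorem PolyT.tl' : PolyT T.tl := by
  refine ⟨.test 0 .skip .skip (.seq (.pop 0) (.seq (parse 1) (clear 1))), 3,
    fun k => 20 * k + 20, ?_, ((PB.const 20).mul PB.id).add (PB.const 20), fun x => ?_⟩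
  · exact ⟨by omega, trivial, trivial, show 0 < 3 by omega, parse_bdd (by omega),
      clear_bdd (by omega)⟩
  · cases x with
    | nil =>
      have h : RunsIn .skip (st0 T.nil.enc) (st0 T.nil.enc) 1 := RunsIn.skip _
      have h1 := RunsIn.testFalse (k := 0) (a := .skip)
        (c := .seq (.pop 0) (.seq (parse 1) (clear 1)))
        (l := []) (by simp [st0, T.enc]) h
      exact h1.mono (by show _ ≤ 20 * _ + 20; omega)
    | cons a b =>
      have h1 := RunsIn.pop (S4 1 (true :: (a.enc ++ b.enc)) [] [] []) 0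
      rw [upd_0, S4_0] at h1
      have h2 := run_parse (n := 1) (le_refl _) a b.enc [] []
      rw [List.append_nil] at h2
      have h3 := run_clear 1 _ (S4 1 b.enc a.enc.reverse [] []) (S4_n (le_refl _) _ _ _ _)
      rw [upd_n (le_refl _), S4_st0] at h3
      have h5 := h1.seq (h2.seq h3)
      have h6 := RunsIn.testTrue (k := 0) (a := .skip) (b := .skip) (S4_0 _ _ _ _) h5
      rw [S4_st0] at h6
      refine h6.mono ?_
      simp only [List.length_reverse]
      have e1 : a.enc.length = a.size := rfl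
      show _ ≤ 20 * (T.cons a b).size + 20
      rw [e1, T.size_cons]
      omega

/-- Case distinction. -/
def T.cases {α : Type*} (a : T) (x y : α) : α :=
  match a with
  | .nil => x
  | .cons _ _ => y

theorem PolyT.ite {F G H : α → T} (hF : PolyT F) (hG : PolyT G) (hH : PolyT H) :
    PolyT (fun x => (F x).cases (G x) (H x)) := by
  obtain ⟨bF, hbF, hbF'⟩ := hF.size_bound
  obtain ⟨cF, nF, pF, hcF, hpF, hrF⟩ := hF
  obtain ⟨cG, nG, pG, hcG, hpG, hrG⟩ := hG
  obtain ⟨cH, nH, pH, hcH, hpH, hrH⟩ := hH
  set n := max (max (max nF nG) nH) 1 with hn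
  have hcF' : cF.Bdd n := hcF.mono (by omega)
  have hcG' : cG.Bdd n := hcG.mono (by omega)
  have hcH' : cH.Bdd n := hcH.mono (by omega)
  have hn1 : 1 ≤ n := by omega
  refine ⟨.seq (copy 0 n (n + 1)) (.seq cF (.test 0 .skip
    (.seq (clear 0) (.seq (move n (n + 1)) (.seq (move (n + 1) 0) cG)))
    (.seq (clear 0) (.seq (move n (n + 1)) (.seq (move (n + 1) 0) cH))))), n + 2,
    fun k => (9 * k + 2) + (pF k + ((2 * bF k + 1) + ((4 * k + 1) + ((4 * k + 1) + (pG k + pH k)))
      + 1)), ?_, ?_, fun x => ?_⟩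
  · exact ⟨copy_bdd (by omega) (by omega) (by omega), hcF'.mono (by omega), by omega, trivial,
      ⟨clear_bdd (by omega), move_bdd (by omega) (by omega), move_bdd (by omega) (by omega),
        hcG'.mono (by omega)⟩,
      ⟨clear_bdd (by omega), move_bdd (by omega) (by omega), move_bdd (by omega) (by omega),
        hcH'.mono (by omega)⟩⟩
  · have lin : ∀ (a b : ℕ) {f : ℕ → ℕ}, PB f → PB (fun k => a * f k + b) := fun a b _ hf =>
      ((PB.const a).mul hf).add (PB.const b)
    exact (lin 9 2 PB.id).add (hpF.add (((lin 2 1 hbF).add ((lin 4 1 PB.id).add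
      ((lin 4 1 PB.id).add (hpG.add hpH)))).add (PB.const 1)))
  · have r0 := run_copy (i := 0) (j := n) (k := n + 1) (by omega) (by omega) (by omega)
      (S4 n (tenc x) [] [] []) (S4_n1 _ _ _ _)
    rw [upd_n hn1, S4_0, S4_n hn1, List.append_nil] at r0
    have r1 := run_inside hcF' hn1 (hrF x) (S4 n (tenc x) (tenc x) [] []) (S4_0 _ _ _ _)
      (fun k h1 h2 => S4_low _ _ _ _ h1 h2)
    rw [upd_0] at r1
    have r2 := run_clear 0 _ (S4 n (F x).enc (tenc x) [] []) (S4_0 _ _ _ _)
    rw [upd_0] at r2
    have r3 := run_move (i := n) (j := n + 1) (by omega) _ (S4 n [] (tenc x) [] [])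
      (S4_n hn1 _ _ _ _)
    rw [upd_n hn1, upd_n1, S4_n1, List.append_nil] at r3
    have r4 := run_move (i := n + 1) (j := 0) (by omega) _
      (S4 n [] [] (tenc x).reverse []) (S4_n1 _ _ _ _)
    rw [upd_n1, upd_0, S4_0, List.append_nil, List.reverse_reverse] at r4
    have hF' : (F x).enc.length ≤ bF (tsz x) := hbF' x
    have hx : (tenc x).length = tsz x := rfl
    cases hFx : F x with
    | nil =>
      have r5 := run_inside hcG' hn1 (hrG x) (S4 n (tenc x) [] [] []) (S4_0 _ _ _ _)
        (fun k h1 h2 => S4_low _ _ _ _ h1 h2)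
      rw [upd_0] at r5
      have r6 := RunsIn.testFalse (k := 0) (a := .skip)
        (c := .seq (clear 0) (.seq (move n (n + 1)) (.seq (move (n + 1) 0) cH))) (l := [])
        (by rw [S4_0, hFx]; rfl)
        (r2.seq (r3.seq (r4.seq r5)))
      have h := r0.seq (r1.seq r6)
      rw [S4_st0, S4_st0] at h
      have e : (F x).cases (G x) (H x) = G x := by rw [hFx]; rfl
      show RunsIn _ _ (st0 ((F x).cases (G x) (H x)).enc) _
      rw [e]
      refine RunsIn.mono h ?_
      simp only [List.length_reverse, hx]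
      omega
    | cons a b =>
      have r5 := run_inside hcH' hn1 (hrH x) (S4 n (tenc x) [] [] []) (S4_0 _ _ _ _)
        (fun k h1 h2 => S4_low _ _ _ _ h1 h2)
      rw [upd_0] at r5
      have r6 := RunsIn.testTrue (k := 0) (a := .skip)
        (b := .seq (clear 0) (.seq (move n (n + 1)) (.seq (move (n + 1) 0) cG)))
        (l := a.enc ++ b.enc)
        (by rw [S4_0, hFx]; rfl)
        (r2.seq (r3.seq (r4.seq r5)))
      have h := r0.seq (r1.seq r6)
      rw [S4_st0, S4_st0] at h
      have e : (F x).cases (G x) (H x) = H x := by rw [hFx]; rfl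
      show RunsIn _ _ (st0 ((F x).cases (G x) (H x)).enc) _
      rw [e]
      refine RunsIn.mono h ?_
      simp only [List.length_reverse, hx]
      omega

theorem T.count_enc (a : T) : a.enc.count true = a.nodes := by
  induction a with
  | nil => rfl
  | cons a b iha ihb => simp [T.enc, T.nodes, iha, ihb]

theorem run_iter_loop {n : ℕ} (hn : 1 ≤ n) {c : Cmd} {F : α → α} {q : ℕ → ℕ} (hc : c.Bdd n)
    (hq : Monotone q) (hrun : ∀ x, RunsIn c (st0 (tenc x)) (st0 (tenc (F x))) (q (tsz x)))
    (Q : ℕ) :
    ∀ (w : List Bool) (y : α), (∀ i ≤ w.count true, tsz (F^[i] y) ≤ Q) →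
    RunsIn (.loop n (.test n .skip (.pop n) (.seq (.pop n) c))) (S4 n (tenc y) w [] [])
      (S4 n (tenc (F^[w.count true] y)) [] [] []) (w.length * (q Q + 3) + 1) := by
  intro w
  induction w with
  | nil =>
    intro y _
    exact (RunsIn.loopNil (S4_n hn _ _ _ _)).mono (by simp)
  | cons b w ih =>
    intro y hy
    have h0 := RunsIn.pop (S4 n (tenc y) (b :: w) [] []) n
    rw [upd_n hn, S4_n hn] at h0
    cases b with
    | false =>
      have hb := RunsIn.testFalse (k := n) (a := .skip) (c := .seq (.pop n) c)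
        (S4_n hn _ _ _ _) h0
      have h1 := ih y (fun i hi => hy i (by simpa using hi))
      have h2 := RunsIn.loopCons (k := n) (by rw [S4_n hn]; simp) hb h1
      have e : (false :: w).count true = w.count true := by simp
      rw [e]
      refine h2.mono ?_
      simp only [List.length_cons]
      nlinarith
    | true =>
      have e : (true :: w).count true = w.count true + 1 := by simp
      have h1 := run_inside hc hn (hrun y) (S4 n (tenc y) w [] []) (S4_0 _ _ _ _)
        (fun k h1 h2 => S4_low _ _ _ _ h1 h2)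
      rw [upd_0] at h1
      have hb := RunsIn.testTrue (k := n) (a := .skip) (b := .pop n)
        (S4_n hn _ _ _ _) (h0.seq h1)
      have h2 := ih (F y) (fun i hi => by
        rw [← Function.iterate_succ_apply]
        exact hy (i + 1) (by omega))
      have h3 := RunsIn.loopCons (k := n) (by rw [S4_n hn]; simp) hb h2
      rw [e, Function.iterate_succ_apply]
      refine h3.mono ?_
      have h4 : q (tsz y) ≤ q Q := hq (hy 0 (Nat.zero_le _))
      simp only [List.length_cons]
      nlinarith

/-- Iteration, with a polynomial bound on the size of the intermediate results. -/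
theorem Poly.iter {F : β → β} (hF : Poly F) {cnt : α → T} (hcnt : PolyT cnt) {g : α → β}
    (hg : Poly g) {B : ℕ → ℕ} (hB : PB B)
    (hb : ∀ x : α, ∀ i ≤ (cnt x).nodes, tsz (F^[i] (g x)) ≤ B (tsz x)) :
    Poly (fun x => F^[(cnt x).nodes] (g x)) := by
  obtain ⟨c, n0, p, hc, hp, hrun⟩ := hF
  obtain ⟨q, hq, hqm, hpq⟩ := hp.exists_mono
  obtain ⟨bc, hbc, hbc'⟩ := hcnt.size_bound
  obtain ⟨c1, n1, p1, hc1, hp1, hrun1⟩ := hcnt.cons hg
  set n := max (max n0 n1) 1 with hn
  have hc' : c.Bdd n := hc.mono (by omega)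
  have hc1' : c1.Bdd n := hc1.mono (by omega)
  have hn1 : 1 ≤ n := by omega
  have hrun' : ∀ x, RunsIn c (st0 (tenc x)) (st0 (tenc (F x))) (q (tsz x)) := fun x =>
    (hrun x).mono (hpq _)
  refine ⟨.seq c1 (.seq (.pop 0) (.seq (parse n)
    (.loop n (.test n .skip (.pop n) (.seq (.pop n) c))))), n + 2,
    fun k => p1 k + (1 + ((5 * bc k + 2) + (bc k * (q (B k) + 3) + 1))), ?_, ?_, fun x => ?_⟩
  · refine ⟨hc1'.mono (by omega), show 0 < n + 2 by omega, parse_bdd (by omega), ?_, ?_,
      trivial, ?_, ?_, hc'.mono (by omega)⟩ <;> show n < n + 2 <;> omega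
  · exact hp1.add ((PB.const 1).add ((((PB.const 5).mul hbc).add (PB.const 2)).add
      ((hbc.mul ((hq.comp hB).add (PB.const 3))).add (PB.const 1))))
  · have h0 := hrun1 x
    have h1 := RunsIn.pop (S4 n (true :: ((cnt x).enc ++ (toT (g x)).enc)) [] [] []) 0
    rw [upd_0, S4_0] at h1
    have h2 := run_parse hn1 (cnt x) (toT (g x)).enc [] []
    rw [List.append_nil] at h2
    have h3 := run_iter_loop hn1 hc' hqm hrun' (B (tsz x)) (cnt x).enc.reverse (g x) (by
      intro i hi
      rw [List.count_reverse, T.count_enc] at hi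
      exact hb x i hi)
    rw [List.count_reverse, T.count_enc] at h3
    rw [S4_st0] at h1
    have h4 := h0.seq (h1.seq (h2.seq h3))
    rw [S4_st0] at h4
    refine RunsIn.mono h4 ?_
    simp only [List.length_reverse]
    have e1 : (cnt x).enc.length = (cnt x).size := rfl
    rw [e1]
    have e2 : (cnt x).size ≤ bc (tsz x) := hbc' x
    have e3 : (cnt x).size * (q (B (tsz x)) + 3)
        ≤ bc (tsz x) * (q (B (tsz x)) + 3) := Nat.mul_le_mul_right _ e2
    omega

end Pool.Agent.Helper86.PT
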